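import Pool.Agent.Zk41.NP2
import Pool.Agent.W93.GB1

/-!
# Narrow progressions in all windows (helper41): dense sets, in terms of the singular series
-/

set_option autoImplicit false

namespace Pool.Agent.Zk41.NP

open Finset Filter
open Pool.Agent.H560R3.GB (sing C₂)

lemma C2_le : C₂ ≤ 1 := by
  unfold C₂
  refine (ciInf_le ⟨0, ?_⟩ 0).trans (by simp)
  rintro _ ⟨z, rfl⟩
  apply prod_nonneg
  intro p hp
  rw [mem_filter, mem_Icc] at hp
  have h1 : (3 : ℝ) ≤ p := by exact_mod_cast hp.1.1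
  have h2 : (1 : ℝ) ≤ ((p : ℝ) - 1) ^ 2 := by nlinarith
  have h3 : 1 / ((p : ℝ) - 1) ^ 2 ≤ 1 := by
    rw [div_le_one (by linarith)]
    exact h2
  linarith

lemma sing_sg (m : ℕ) : sing m = 2 * C₂ * Pool.Agent.K3h89.SX.sg m := by
  unfold sing Pool.Agent.K3h89.SX.sg
  congr 1
  apply prod_congr _ (fun _ _ => rfl)
  ext p
  rw [mem_filter, mem_erase]
  constructor
  · rintro ⟨h1, h2⟩
    exact ⟨by omega, h1⟩
  · rintro ⟨h1, h2⟩
    have := (Nat.mem_primeFactors.1 h2).1.two_le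
    exact ⟨h2, by omega⟩

lemma sg_le_sing (m : ℕ) : Pool.Agent.K3h89.SX.sg m ≤ sing m := by
  rw [sing_sg]
  have h1 := Pool.Agent.W93.GB.C2_half
  have h2 := sg_nonneg m
  nlinarith

lemma sing_le_sg (m : ℕ) : sing m ≤ 2 * Pool.Agent.K3h89.SX.sg m := by
  rw [sing_sg]
  have h1 := C2_le
  have h2 := sg_nonneg m
  nlinarith

lemma sing_nonneg (m : ℕ) : 0 ≤ sing m := (sg_nonneg m).trans (sg_le_sing m)

/-- dense sets of primes `p` with `m - p` rough, in all windows -/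
theorem dense (θ : ℝ) (hθ : 0 < θ) (k : ℕ) (δ κ : ℝ) (hδ : 0 < δ) (hκ : 0 < κ) :
    ∃ B m₀ : ℕ, ∀ m : ℕ, m₀ ≤ m → Even m → ∀ u v : ℝ, √(m : ℝ) ≤ u → v ≤ (m : ℝ) / 2 →
      (m : ℝ) ^ θ ≤ v - u → ∀ S : Finset ℕ, (∀ p ∈ S, p.Prime ∧ u < p ∧ (p : ℝ) ≤ v ∧
        ∀ q : ℕ, q.Prime → q ∣ (m - p) → (m : ℝ) ^ δ ≤ q) →
      κ * (sing m * (v - u) / Real.log m ^ 2) ≤ S.card → 
      ∃ a d : ℕ, 1 ≤ d ∧ (d : ℝ) ≤ Real.log m ^ B ∧ ∀ i < k, a + i * d ∈ S := by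
  obtain ⟨B, n₀, h⟩ := dense_real θ hθ k (min δ (1 / 2)) κ
    (lt_min hδ (by norm_num)) hκ
  refine ⟨B, max n₀ 1, fun m hm hev u v hu hv huv S hS hSc => ?_⟩
  have hm1 : (1 : ℝ) ≤ m := by exact_mod_cast (le_max_right _ _).trans hm
  have hlt : 0 < (m : ℝ) ^ θ := by positivity
  apply h m ((le_max_left _ _).trans hm) hev u v ((Real.sqrt_nonneg _).trans hu) (by linarith) huv S
  · intro p hp
    obtain ⟨h1, h2, h3, h4⟩ := hS p hp
    refine ⟨h1, h2, h3, ?_, fun q hq hqd => ?_⟩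
    · calc (m : ℝ) ^ (min δ (1 / 2)) ≤ (m : ℝ) ^ (1 / 2 : ℝ) :=
            Real.rpow_le_rpow_of_exponent_le hm1 (min_le_right _ _)
        _ = √(m : ℝ) := (Real.sqrt_eq_rpow _).symm
        _ ≤ p := (hu.trans_lt h2).le
    · exact (Real.rpow_le_rpow_of_exponent_le hm1 (min_le_left _ _)).trans (h4 q hq hqd)
  · refine le_trans ?_ hSc
    have h1 := sg_le_sing m
    have h2 : 0 ≤ (v - u) / Real.log m ^ 2 := div_nonneg (by linarith) (by positivity)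
    calc κ * (Pool.Agent.K3h89.SX.sg m * ((v - u) / Real.log m ^ 2)) ≤
        κ * (sing m * ((v - u) / Real.log m ^ 2)) :=
          mul_le_mul_of_nonneg_left (mul_le_mul_of_nonneg_right h1 h2) hκ.le
      _ = κ * (sing m * (v - u) / Real.log m ^ 2) := by ring

end Pool.Agent.Zk41.NP
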