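import Pool.Agent.Zk24.SL.CovK
import Pool.Agent.Zk24.SL.Grp

/-!
A continuous function, supported near few points of a dense sequence, with integral close to one for
a singular measure invariant under two multiplications (after a plan of helper24).
-/

set_option autoImplicit false

open MeasureTheory Filter Topology Set
open scoped ENNReal

namespace Pool.Agent.Zk41

open Pool.Agent.Zk24.SL

theorem cov_sing {p q : ℕ} (hp : 2 ≤ p) (hq : 2 ≤ q) (hpq : Nat.Coprime p q)
    {κ : Measure UnitAddCircle} [IsProbabilityMeasure κ]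
    (hκp : MeasurePreserving (fun x : UnitAddCircle => p • x) κ κ)
    (hκq : MeasurePreserving (fun x : UnitAddCircle => q • x) κ κ)
    (hκs : κ ⟂ₘ (volume : Measure UnitAddCircle)) {η : ℝ} (hη : 0 < η) (n C : ℕ) :
    ∃ (l K : ℕ) (s : Fin K → ℕ) (g : C(UnitAddCircle, ℝ)), 1 ≤ l ∧ C ≤ p ^ l ∧ 1 ≤ K ∧
      K ^ n ≤ p ^ l ∧ (∀ x, 0 ≤ g x ∧ g x ≤ 1) ∧
      (∀ x, g x ≠ 0 → ∃ a, dist x (TopologicalSpace.denseSeq UnitAddCircle (s a)) ≤
        1 / (4 * (p:ℝ) ^ l)) ∧ 1 - η < ∫ x, g x ∂κ := by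
  classical
  have hE := essInj hp hq hpq hκp hκq hκs
  have hpR : (2 : ℝ) ≤ p := by exact_mod_cast hp
  have hp0 : (0 : ℝ) < p := by linarith
  have hC0 : (0 : ℝ) < (C : ℝ) + 1 := by positivity
  obtain ⟨K, cen, ρ, hK, hρ, hρK, hU⟩ := coveringK hp κ hκp hE (κ := η / 2)
    (c := 1 / (16 * p * ((C : ℝ) + 1))) (by positivity) (by positivity) n
  have hK1 : (1 : ℝ) ≤ (K : ℝ) ^ n := one_le_pow₀ (by exact_mod_cast hK)
  have hmain : 16 * p * ((C : ℝ) + 1) * (ρ * (K : ℝ) ^ n) ≤ 1 := by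
    rw [le_div_iff₀ (by positivity)] at hρK
    linarith
  -- the scale
  have hex : ∃ m : ℕ, 1 < 16 * ρ * (p : ℝ) ^ m := by
    have h1 : Tendsto (fun m : ℕ => 16 * ρ * (p : ℝ) ^ m) atTop atTop :=
      (tendsto_pow_atTop_atTop_of_one_lt (by linarith)).const_mul_atTop (by positivity)
    exact (h1.eventually (eventually_gt_atTop 1)).exists
  have hρle : 16 * p * ρ ≤ 1 := by
    have h1 : ρ ≤ ρ * (K : ℝ) ^ n := le_mul_of_one_le_right hρ.le hK1
    have h2 : ρ * (K : ℝ) ^ n ≤ ((C : ℝ) + 1) * (ρ * (K : ℝ) ^ n) := by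
      apply le_mul_of_one_le_left (by positivity)
      linarith [(Nat.cast_nonneg C : (0 : ℝ) ≤ C)]
    have h3 : 16 * p * ρ ≤ 16 * p * (((C : ℝ) + 1) * (ρ * (K : ℝ) ^ n)) := by
      have := h1.trans h2
      gcongr
    linarith
  obtain ⟨m, hm, hmin⟩ : ∃ m : ℕ, 1 < 16 * ρ * (p : ℝ) ^ m ∧
      ∀ k < m, 16 * ρ * (p : ℝ) ^ k ≤ 1 :=
    ⟨Nat.find hex, Nat.find_spec hex, fun k hk => not_lt.1 (Nat.find_min hex hk)⟩
  have hm2 : 2 ≤ m := by
    by_contra hcon
    have h1 : m = 0 ∨ m = 1 := by omega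
    rcases h1 with rfl | rfl
    · rw [pow_zero, mul_one] at hm
      nlinarith
    · rw [pow_one] at hm
      linarith
  obtain ⟨l, rfl⟩ : ∃ l, m = l + 1 := ⟨m - 1, by omega⟩
  have hl := hmin l (by omega)
  have hpl : (0 : ℝ) < (p : ℝ) ^ l := by positivity
  have hbig : (K : ℝ) ^ n * ((C : ℝ) + 1) ≤ (p : ℝ) ^ l := by
    have h1 : 16 * p * ρ * ((K : ℝ) ^ n * ((C : ℝ) + 1)) ≤ 16 * p * ρ * (p : ℝ) ^ l := by
      have e1 : 16 * p * ρ * ((K : ℝ) ^ n * ((C : ℝ) + 1)) =
          16 * p * ((C : ℝ) + 1) * (ρ * (K : ℝ) ^ n) := by ring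
      have e2 : 16 * p * ρ * (p : ℝ) ^ l = 16 * ρ * (p : ℝ) ^ (l + 1) := by ring
      rw [e1, e2]
      linarith
    exact le_of_mul_le_mul_left h1 (by positivity)
  have hCl : C ≤ p ^ l := by
    have h1 : (C : ℝ) ≤ (p : ℝ) ^ l := by
      have : (C : ℝ) + 1 ≤ (K : ℝ) ^ n * ((C : ℝ) + 1) := le_mul_of_one_le_left hC0.le hK1
      linarith
    exact_mod_cast h1
  have hKl : K ^ n ≤ p ^ l := by
    have h1 : (K : ℝ) ^ n ≤ (p : ℝ) ^ l := by
      have : (K : ℝ) ^ n ≤ (K : ℝ) ^ n * ((C : ℝ) + 1) := by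
        apply le_mul_of_one_le_right (by positivity)
        linarith [(Nat.cast_nonneg C : (0 : ℝ) ≤ C)]
      linarith
    exact_mod_cast h1
  -- the points of the dense sequence
  have hs : ∀ a : Fin K, ∃ k : ℕ, dist (cen a) (TopologicalSpace.denseSeq UnitAddCircle k) < ρ :=
    fun a => (TopologicalSpace.denseRange_denseSeq UnitAddCircle).exists_dist_lt (cen a) hρ
  choose s hs using hs
  -- the function
  set W : Set UnitAddCircle := Pool.Agent.H706R2.Ren.U cen ρ with hW
  have hWm : MeasurableSet W := by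
    rw [hW]
    exact (isClosed_iUnion_of_finite fun a => Metric.isClosed_closedBall).measurableSet
  have hWne : W.Nonempty := by
    refine ⟨cen ⟨0, by omega⟩, ?_⟩
    rw [hW]
    exact mem_iUnion.2 ⟨⟨0, by omega⟩, Metric.mem_closedBall_self hρ.le⟩
  have hcont : Continuous fun x : UnitAddCircle => max 0 (1 - Metric.infDist x W / ρ) :=
    continuous_const.max (continuous_const.sub ((Metric.continuous_infDist_pt W).div_const ρ))
  refine ⟨l, K, s, ⟨_, hcont⟩, by omega, hCl, hK, hKl, ?_, ?_, ?_⟩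
  · intro x
    refine ⟨le_max_left _ _, max_le zero_le_one ?_⟩
    have : 0 ≤ Metric.infDist x W / ρ := div_nonneg Metric.infDist_nonneg hρ.le
    linarith
  · intro x hx
    have h1 : Metric.infDist x W < ρ := by
      by_contra hcon
      push Not at hcon
      apply hx
      have h2 : 1 ≤ Metric.infDist x W / ρ := (one_le_div hρ).2 hcon
      exact max_eq_left (by linarith)
    obtain ⟨y, hy, hxy⟩ := (Metric.infDist_lt_iff hWne).1 h1
    obtain ⟨a, ha⟩ := mem_iUnion.1 hy
    refine ⟨a, ?_⟩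
    have h2 := Metric.mem_closedBall.1 ha
    have h3 := hs a
    have h4 : dist x (TopologicalSpace.denseSeq UnitAddCircle (s a)) ≤ 3 * ρ := by
      have h5 := dist_triangle x y (cen a)
      have h6 := dist_triangle x (cen a) (TopologicalSpace.denseSeq UnitAddCircle (s a))
      linarith
    refine h4.trans ?_
    rw [le_div_iff₀ (by positivity)]
    nlinarith
  · have hint : Integrable (fun x : UnitAddCircle => max 0 (1 - Metric.infDist x W / ρ)) κ := by
      refine (integrable_const (1 : ℝ)).mono' hcont.aestronglyMeasurable (ae_of_all _ fun x => ?_)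
      rw [Real.norm_eq_abs, abs_of_nonneg (le_max_left _ _)]
      refine max_le zero_le_one ?_
      have : 0 ≤ Metric.infDist x W / ρ := div_nonneg Metric.infDist_nonneg hρ.le
      linarith
    have h1 : κ.real W ≤ ∫ x, max 0 (1 - Metric.infDist x W / ρ) ∂κ := by
      rw [← integral_indicator_one hWm]
      refine integral_mono ((integrable_const (1 : ℝ)).indicator hWm) hint fun x => ?_
      by_cases hx : x ∈ W
      · rw [indicator_of_mem hx, Metric.infDist_zero_of_mem hx]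
        simp
      · rw [indicator_of_notMem hx]
        exact le_max_left _ _
    have h2 := probReal_compl_eq_one_sub (μ := κ) hWm
    show 1 - η < ∫ x, max 0 (1 - Metric.infDist x W / ρ) ∂κ
    linarith

end Pool.Agent.Zk41
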