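import Pool.Agent.N831.LI.Neg
import Pool.Agent.N831.LI.Conv
import Pool.Agent.Y23.Zs
import Pool.Agent.H370R2.Count

/-!
# The zero data of zeta for the abstract theory of Li coefficients
-/

set_option autoImplicit false

open Complex Filter Topology Finset
open scoped ComplexConjugate
open Pool.Agent.H24R2.JP (XX)
open Pool.Agent.Y23

namespace Pool.Agent.Zk41.Li

/-- the multiplicity of the zero `1/2 + z` -/
noncomputable def Mz (z : ℂ) : ℝ := (analyticOrderNatAt XX z : ℝ)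

lemma Mz_nn (z : ℂ) : 0 ≤ Mz z := Nat.cast_nonneg _

lemma isZ_of_XX {z : ℂ} (h : XX z = 0) : IsZ (1 / 2 + z) := by
  rw [isZ_iff]
  rw [show (1 / 2 + z - 1 / 2 : ℂ) = z by ring]
  exact h

lemma XX_of_Mz {z : ℂ} (h : Mz z ≠ 0) : XX z = 0 := by
  by_contra h0
  apply h
  unfold Mz analyticOrderNatAt
  rw [(XX_an z).analyticOrderAt_eq_zero.2 h0]
  simp

lemma Mz_one_le {z : ℂ} (h : XX z = 0) : 1 ≤ Mz z := by
  have h1 := isZ_of_XX h
  have h2 := mu_pos h1
  rw [mu_eq h1.2.1 h1.2.2, show (1 / 2 + z - 1 / 2 : ℂ) = z by ring] at h2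
  unfold Mz
  exact_mod_cast h2

lemma Mz_eq_mu {z : ℂ} (h : XX z = 0) : Mz z = (mu (1 / 2 + z) : ℝ) := by
  have h1 := isZ_of_XX h
  rw [mu_eq h1.2.1 h1.2.2, show (1 / 2 + z - 1 / 2 : ℂ) = z by ring]
  rfl

lemma XX_strip_re {z : ℂ} (h : XX z = 0) : |z.re| < 1 / 2 := by
  have h1 := isZ_of_XX h
  have h2 := h1.2.1
  have h3 := h1.2.2
  have e : (1 / 2 + z : ℂ).re = 1 / 2 + z.re := by simp
  rw [e] at h2 h3
  rw [abs_lt]
  constructor <;> linarith

/-- restriction of a finite sum to the zeros -/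
lemma restrict (S : Finset ℂ) (g : ℂ → ℝ) :
    ∑ z ∈ S, Mz z * g z = ∑ z ∈ S.filter (fun z => XX z = 0), Mz z * g z := by
  classical
  rw [Finset.sum_filter]
  refine Finset.sum_congr rfl fun z _ => ?_
  split_ifs with h
  · rfl
  · have : Mz z = 0 := by
      by_contra h1
      exact h (XX_of_Mz h1)
    rw [this, zero_mul]

/-- local count -/
lemma cnt_loc : ∃ C : ℝ, 0 < C ∧ ∀ t : ℝ, ∀ S : Finset ℂ,
    (∀ z ∈ S, XX z = 0 ∧ |z.im - t| ≤ 1) → ∑ z ∈ S, Mz z ≤ C * Lg t := by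
  classical
  obtain ⟨C, hC, h⟩ := cnt
  refine ⟨C, hC, fun t S hS => ?_⟩
  have h1 := h t (S.image (fun z => 1 / 2 + z)) (by
    intro s hs
    rw [Finset.mem_image] at hs
    obtain ⟨z, hz, rfl⟩ := hs
    obtain ⟨h2, h3⟩ := hS z hz
    refine ⟨isZ_of_XX h2, ?_⟩
    have e : (1 / 2 + z : ℂ).im = z.im := by simp
    rw [e]
    exact h3)
  rw [Finset.sum_image (fun x _ y _ hxy => by simpa using hxy)] at h1
  refine le_trans (le_of_eq ?_) h1
  push_cast
  exact Finset.sum_congr rfl fun z hz => Mz_eq_mu (hS z hz).1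

lemma Lg_le_rpow {ε : ℝ} (hε : 0 < ε) (x : ℝ) : Lg x ≤ (3 ^ ε / ε) * (1 + |x|) ^ ε := by
  unfold Lg
  have h0 := abs_nonneg x
  have h1 := Real.log_le_rpow_div (show (0 : ℝ) ≤ 3 + |x| by positivity) hε
  have h2 : (3 + |x|) ^ ε ≤ (3 * (1 + |x|)) ^ ε := Real.rpow_le_rpow (by positivity) (by linarith) hε.le
  rw [Real.mul_rpow (by norm_num) (by positivity)] at h2
  calc Real.log (3 + |x|) ≤ (3 + |x|) ^ ε / ε := h1
    _ ≤ (3 ^ ε * (1 + |x|) ^ ε) / ε := div_le_div_of_nonneg_right h2 hε.le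
    _ = _ := by ring

lemma summable_int {s : ℝ} (hs : 1 < s) : Summable (fun k : ℤ => (1 + |(k : ℝ)|) ^ (-s)) := by
  have h1 : Summable (fun j : ℤ => |(j : ℝ)| ^ (-s)) := Real.summable_abs_int_rpow hs
  have h2 : Summable (fun j : ℤ => |(j : ℝ)| ^ (-s) + if j = 0 then 1 else 0) :=
    h1.add (summable_of_ne_finset_zero (s := {0}) fun b hb => by
      rw [Finset.mem_singleton] at hb
      rw [if_neg hb])
  refine Summable.of_nonneg_of_le (fun j => by positivity) (fun j => ?_) h2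
  by_cases hj : j = 0
  · subst hj
    simp only [Int.cast_zero, abs_zero, add_zero, Real.one_rpow, if_true]
    have : (0 : ℝ) ≤ (0 : ℝ) ^ (-s) := by positivity
    linarith
  · rw [if_neg hj, add_zero]
    have hj1 : (1 : ℝ) ≤ |(j : ℝ)| := by
      have := Int.one_le_abs hj
      exact_mod_cast this
    rw [Real.rpow_neg (by positivity), Real.rpow_neg (by positivity)]
    apply inv_anti₀ (Real.rpow_pos_of_pos (by linarith) _)
    exact Real.rpow_le_rpow (by positivity) (by linarith) (by linarith)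

lemma cnt_sum (s : ℝ) (hs : 1 < s) : ∃ C : ℝ, 0 ≤ C ∧ ∀ S : Finset ℂ, ∑ z ∈ S, Mz z / (1 + |z.im|) ^ s ≤ C := by
  classical
  obtain ⟨C, hC, hcnt⟩ := cnt_loc
  set ε : ℝ := (s - 1) / 2 with hε
  have hε0 : 0 < ε := by rw [hε]; linarith
  have hs' : 1 < s - ε := by rw [hε]; linarith
  set B : ℝ := C * ((3 ^ ε / ε) * 2 ^ s) with hB
  have hB0 : 0 ≤ B := by positivity
  have hsum := summable_int hs'
  refine ⟨B * ∑' k : ℤ, (1 + |(k : ℝ)|) ^ (-(s - ε)), by positivity, fun S => ?_⟩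
  have e0 : ∑ z ∈ S, Mz z / (1 + |z.im|) ^ s = ∑ z ∈ S, Mz z * ((1 + |z.im|) ^ s)⁻¹ := by
    simp_rw [div_eq_mul_inv]
  rw [e0, restrict]
  set S' := S.filter (fun z => XX z = 0) with hS'
  rw [← Finset.sum_fiberwise_of_maps_to (s := S') (t := S'.image (fun z => ⌊z.im⌋)) (g := fun z => ⌊z.im⌋)
    (fun z hz => Finset.mem_image_of_mem _ hz)]
  have hk : ∀ k ∈ S'.image (fun z => ⌊z.im⌋), ∑ z ∈ S'.filter (fun z => ⌊z.im⌋ = k), Mz z * ((1 + |z.im|) ^ s)⁻¹ ≤
      B * (1 + |(k : ℝ)|) ^ (-(s - ε)) := by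
    intro k _
    have h1 := hcnt k (S'.filter (fun z => ⌊z.im⌋ = k)) (fun z hz => by
      rw [Finset.mem_filter] at hz
      refine ⟨(Finset.mem_filter.1 hz.1).2, ?_⟩
      have h4 := Int.floor_le z.im
      have h5 := Int.lt_floor_add_one z.im
      rw [hz.2] at h4 h5
      rw [abs_le]
      constructor <;> linarith)
    have h2 : ∀ z ∈ S'.filter (fun z => ⌊z.im⌋ = k), Mz z * ((1 + |z.im|) ^ s)⁻¹ ≤
        Mz z * (2 ^ s * (1 + |(k : ℝ)|) ^ (-s)) := by
      intro z hz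
      rw [Finset.mem_filter] at hz
      refine mul_le_mul_of_nonneg_left ?_ (Mz_nn z)
      have h4 := Int.floor_le z.im
      have h5 := Int.lt_floor_add_one z.im
      rw [hz.2] at h4 h5
      have h6 : |(k : ℝ)| ≤ |z.im| + 1 := by
        rw [abs_le]
        constructor
        · have := neg_abs_le z.im
          linarith
        · have := le_abs_self z.im
          linarith
      have h7 : (1 + |(k : ℝ)|) / 2 ≤ 1 + |z.im| := by
        have := abs_nonneg z.im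
        linarith
      have h8 : ((1 + |(k : ℝ)|) / 2) ^ s ≤ (1 + |z.im|) ^ s := Real.rpow_le_rpow (by positivity) h7 (by linarith)
      have h9 : (2 : ℝ) ^ s * (1 + |(k : ℝ)|) ^ (-s) = (((1 + |(k : ℝ)|) / 2) ^ s)⁻¹ := by
        rw [Real.div_rpow (by positivity) (by norm_num), inv_div, Real.rpow_neg (by positivity), div_eq_mul_inv]
      rw [h9]
      exact inv_anti₀ (Real.rpow_pos_of_pos (by positivity) _) h8
    calc _ ≤ ∑ z ∈ S'.filter (fun z => ⌊z.im⌋ = k), Mz z * (2 ^ s * (1 + |(k : ℝ)|) ^ (-s)) :=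
          Finset.sum_le_sum h2
      _ = (∑ z ∈ S'.filter (fun z => ⌊z.im⌋ = k), Mz z) * (2 ^ s * (1 + |(k : ℝ)|) ^ (-s)) := by
          rw [Finset.sum_mul]
      _ ≤ (C * Lg k) * (2 ^ s * (1 + |(k : ℝ)|) ^ (-s)) := by
          refine mul_le_mul_of_nonneg_right h1 (by positivity)
      _ ≤ (C * ((3 ^ ε / ε) * (1 + |(k : ℝ)|) ^ ε)) * (2 ^ s * (1 + |(k : ℝ)|) ^ (-s)) := by
          refine mul_le_mul_of_nonneg_right (mul_le_mul_of_nonneg_left (Lg_le_rpow hε0 _) hC.le) (by positivity)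
      _ = B * ((1 + |(k : ℝ)|) ^ ε * (1 + |(k : ℝ)|) ^ (-s)) := by rw [hB]; ring
      _ = _ := by
          rw [← Real.rpow_add (by positivity)]
          congr 2
          ring
  refine (Finset.sum_le_sum hk).trans ?_
  rw [← Finset.mul_sum]
  exact mul_le_mul_of_nonneg_left (hsum.sum_le_tsum _ fun k _ => by positivity) hB0

lemma low : ∃ c : ℝ, 0 < c ∧ ∃ Y0 : ℝ, 1 ≤ Y0 ∧ ∀ Y : ℝ, Y0 ≤ Y → ∃ S : Finset ℂ,
    (∀ z ∈ S, Y < z.im ∧ z.im ≤ 2 * Y) ∧ c * Y * Real.log Y ≤ ∑ z ∈ S, Mz z := by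
  classical
  obtain ⟨C, T0, hC, hT0, h⟩ := H370.nn_asymp H370.good_zeta
  refine ⟨1 / 8 - 1 / 100, by norm_num, max T0 (Real.exp (100 * C)), le_max_of_le_left (by linarith), fun Y hY => ?_⟩
  have hY1 : T0 ≤ Y := (le_max_left _ _).trans hY
  have hY2 : Real.exp (100 * C) ≤ Y := (le_max_right _ _).trans hY
  have hY0 : 0 < Y := by linarith
  have hL : 100 * C ≤ Real.log Y := by
    rw [Real.le_log_iff_exp_le hY0]; exact hY2
  have hfin := H370.zset_finite H370.good_zeta Y (2 * Y) (by linarith)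
  refine ⟨hfin.toFinset.image (fun s => s - 1 / 2), ?_, ?_⟩
  · intro z hz
    rw [Finset.mem_image] at hz
    obtain ⟨s, hs, rfl⟩ := hz
    rw [Set.Finite.mem_toFinset] at hs
    have e : (s - 1 / 2 : ℂ).im = s.im := by simp
    rw [e]
    exact ⟨hs.2.2.1, hs.2.2.2.1⟩
  · rw [Finset.sum_image (fun x _ y _ hxy => by simpa using hxy)]
    have h1 := h Y hY1 Y (2 * Y) le_rfl (by linarith) (by linarith) le_rfl
    have h2 : (H370.NN riemannZeta Y (2 * Y) : ℝ) = ∑ s ∈ hfin.toFinset, Mz (s - 1 / 2) := by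
      rw [H370.NN_eq_sum H370.good_zeta Y (2 * Y) (by linarith)]
      push_cast
      refine Finset.sum_congr rfl fun s hs => ?_
      rw [Set.Finite.mem_toFinset] at hs
      unfold Mz
      rw [← mu_eq hs.1 hs.2.1]
      rfl
    rw [← h2]
    rw [abs_le] at h1
    have h3 : 1 / 8 * (Y * Real.log Y) ≤ Y * Real.log Y / (2 * Real.pi) := by
      rw [le_div_iff₀ (by positivity)]
      have := Real.pi_lt_d2
      have h4 : 0 ≤ Y * Real.log Y := mul_nonneg hY0.le (by linarith)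
      nlinarith
    have h5 : C * Y ≤ 1 / 100 * (Y * Real.log Y) := by nlinarith
    linarith [h1.1]

theorem zs : Pool.Agent.N831.LI.Zs Mz :=
  ⟨Mz_nn, fun z h => Mz_one_le (XX_of_Mz h), fun z h => XX_strip_re (XX_of_Mz h), fun z => by
    unfold Mz analyticOrderNatAt
    rw [XX_order_conj], fun z => by
    unfold Mz analyticOrderNatAt
    rw [XX_order_neg], cnt_sum, low⟩

end Pool.Agent.Zk41.Li
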