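import Pool.Agent.Zk41.LiA
import Pool.Agent.W190.C3

/-!
# The density estimate of Carlson in the form needed for the Li coefficients
-/

set_option autoImplicit false

open Complex Filter Topology Finset
open scoped ComplexConjugate
open Pool.Agent.H24R2.JP (XX)
open Pool.Agent.Y23

namespace Pool.Agent.Zk41.Li



lemma FF_mu {s : ℂ} (h0 : 0 < s.re) (h1 : s.re < 1) : H353.mu s = mu s := by
  have hs1 : s ≠ 1 := by
    rintro rfl
    simp at h1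
  unfold H353.mu mu analyticOrderNatAt
  have hev : ZU.J_g2b.FF =ᶠ[𝓝 s] (fun z => z - 1) * riemannZeta := by
    have hU : {z : ℂ | z ≠ 1} ∈ 𝓝 s := isOpen_ne.mem_nhds hs1
    filter_upwards [hU] with z hz
    exact ZU.J_g2b.FF_ne hz
  have han : AnalyticAt ℂ (fun z : ℂ => z - 1) s := by fun_prop
  rw [analyticOrderAt_congr hev, analyticOrderAt_mul han (zeta_an h1),
    (han.analyticOrderAt_eq_zero).2 (sub_ne_zero.2 hs1), zero_add]

lemma dens_right {δ η : ℝ} (h0 : 0 < δ) (h1 : δ < 1 / 2) (hη : 0 < η) : ∃ C : ℝ, 0 ≤ C ∧ ∀ T : ℝ, 1 ≤ T →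
    ∀ S : Finset ℂ, (∀ z ∈ S, XX z = 0 ∧ δ ≤ z.re ∧ |z.im| ≤ T) → ∑ z ∈ S, Mz z ≤ C * T ^ (1 - 4 * δ ^ 2 + η) := by
  classical
  obtain ⟨C, hC, h⟩ := Pool.Agent.W190.carlson (1 / 2 + δ) η (by linarith) (by linarith) hη
  refine ⟨C, hC.le, fun T hT S hS => ?_⟩
  have h2 := h T hT (S.image (fun z => 1 / 2 + z)) (by
    intro s hs
    rw [Finset.mem_image] at hs
    obtain ⟨z, hz, rfl⟩ := hs
    obtain ⟨a1, a2, a3⟩ := hS z hz
    have b1 := isZ_of_XX a1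
    have hs1 : (1 / 2 + z : ℂ) ≠ 1 := by
      intro h
      have := b1.2.2
      rw [h] at this
      simp at this
    refine ⟨?_, ?_, ?_⟩
    · show ZU.J_g2b.FF (1 / 2 + z) = 0
      rw [ZU.J_g2b.FF_ne hs1, b1.1, mul_zero]
    · have e : (1 / 2 + z : ℂ).re = 1 / 2 + z.re := by simp
      rw [e]
      linarith
    · have e : (1 / 2 + z : ℂ).im = z.im := by simp
      rw [e]
      exact a3)
  rw [Finset.sum_image (fun x _ y _ hxy => by simpa using hxy)] at h2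
  have e1 : 4 * (1 / 2 + δ) * (1 - (1 / 2 + δ)) + η = 1 - 4 * δ ^ 2 + η := by ring
  rw [e1] at h2
  refine le_trans (le_of_eq ?_) h2
  refine Finset.sum_congr rfl fun z hz => ?_
  have b1 := isZ_of_XX (hS z hz).1
  rw [Mz_eq_mu (hS z hz).1, FF_mu b1.2.1 b1.2.2]

lemma Mz_neg (z : ℂ) : Mz (-z) = Mz z := by
  unfold Mz analyticOrderNatAt
  rw [XX_order_neg]

lemma XX_neg_zero {z : ℂ} (h : XX z = 0) : XX (-z) = 0 := by
  rw [Pool.Agent.H24R2.JP.B1h.XX_neg, h]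

theorem cnt_margin {δ η : ℝ} (h0 : 0 ≤ δ) (h1 : δ ≤ 1 / 2) (hη : 0 < η) : ∃ C : ℝ, 0 ≤ C ∧ ∀ T : ℝ, 1 ≤ T →
    ∀ S : Finset ℂ, (∀ z ∈ S, XX z = 0 ∧ δ ≤ |z.re| ∧ |z.im| ≤ T) → ∑ z ∈ S, Mz z ≤ C * T ^ (1 - 4 * δ ^ 2 + η) := by
  classical
  rcases h0.eq_or_lt with h0 | h0
  · subst h0
    obtain ⟨C, hC, h⟩ := cnt_sum (1 + η) (by linarith)
    refine ⟨C * 2 ^ (1 + η), by positivity, fun T hT S hS => ?_⟩
    have hT0 : 0 < T := by linarith
    have h2 := h S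
    have h3 : ∑ z ∈ S, Mz z ≤ (∑ z ∈ S, Mz z / (1 + |z.im|) ^ (1 + η)) * (2 * T) ^ (1 + η) := by
      rw [Finset.sum_mul]
      refine Finset.sum_le_sum fun z hz => ?_
      have h4 := (hS z hz).2.2
      have h5 : (0 : ℝ) < (1 + |z.im|) ^ (1 + η) := Real.rpow_pos_of_pos (by positivity) _
      rw [div_mul_eq_mul_div, le_div_iff₀ h5]
      refine mul_le_mul_of_nonneg_left ?_ (Mz_nn z)
      exact Real.rpow_le_rpow (by positivity) (by linarith) (by linarith)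
    calc ∑ z ∈ S, Mz z ≤ _ := h3
      _ ≤ C * (2 * T) ^ (1 + η) := by gcongr
      _ = _ := by
        rw [Real.mul_rpow (by norm_num) hT0.le]
        norm_num
        ring
  rcases h1.eq_or_lt with h1 | h1
  · subst h1
    refine ⟨0, le_rfl, fun T hT S hS => ?_⟩
    rw [zero_mul]
    refine (Finset.sum_eq_zero fun z hz => ?_).le
    exfalso
    obtain ⟨a1, a2, a3⟩ := hS z hz
    have := XX_strip_re a1
    linarith
  obtain ⟨C, hC, h⟩ := dens_right h0 h1 hη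
  refine ⟨2 * C, by positivity, fun T hT S hS => ?_⟩
  rw [← Finset.sum_filter_add_sum_filter_not S (fun z => δ ≤ z.re)]
  have b1 := h T hT (S.filter (fun z => δ ≤ z.re)) (fun z hz => by
    rw [Finset.mem_filter] at hz
    obtain ⟨a1, a2, a3⟩ := hS z hz.1
    exact ⟨a1, hz.2, a3⟩)
  have b2 := h T hT ((S.filter (fun z => ¬ δ ≤ z.re)).image (fun z => -z)) (fun w hw => by
    rw [Finset.mem_image] at hw
    obtain ⟨z, hz, rfl⟩ := hw
    rw [Finset.mem_filter, not_le] at hz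
    obtain ⟨a1, a2, a3⟩ := hS z hz.1
    refine ⟨XX_neg_zero a1, ?_, ?_⟩
    · rw [Complex.neg_re]
      rcases abs_cases z.re with h5 | h5 <;> linarith [h5.1, h5.2, hz.2]
    · rw [Complex.neg_im, abs_neg]
      exact a3)
  rw [Finset.sum_image (fun x _ y _ hxy => by simpa using hxy)] at b2
  have e : ∑ z ∈ S.filter (fun z => ¬ δ ≤ z.re), Mz (-z) = ∑ z ∈ S.filter (fun z => ¬ δ ≤ z.re), Mz z :=
    Finset.sum_congr rfl fun z _ => Mz_neg z
  rw [e] at b2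
  linarith

/-- the density hypothesis -/
theorem dn {κ : ℝ} (hκ : 0 < κ) {δ0 : ℝ} (h0 : 0 ≤ δ0) (h02 : δ0 ≤ 1 / 2)
    (hz : ∀ z, XX z = 0 → |z.re| ≤ δ0)
    (hc : ∀ δ : ℝ, 0 ≤ δ → δ ≤ δ0 → (1 - 4 * δ ^ 2) + 2 * κ * δ < 2) : Pool.Agent.N831.LI.Dn Mz κ := by
  classical
  -- the minimum
  obtain ⟨x, hx, hmin⟩ := isCompact_Icc.exists_isMinOn (s := Set.Icc 0 δ0)
    (f := fun δ : ℝ => 2 - ((1 - 4 * δ ^ 2) + 2 * κ * δ)) ⟨0, le_rfl, h0⟩ (by fun_prop)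
  set m0 : ℝ := 2 - ((1 - 4 * x ^ 2) + 2 * κ * x) with hm0
  have hm0p : 0 < m0 := by
    have := hc x hx.1 hx.2
    rw [hm0]; linarith
  have hmin' : ∀ δ, 0 ≤ δ → δ ≤ δ0 → m0 ≤ 2 - ((1 - 4 * δ ^ 2) + 2 * κ * δ) := fun δ h1 h2 =>
    hmin (⟨h1, h2⟩ : δ ∈ Set.Icc 0 δ0)
  set η : ℝ := m0 / 4 with hη
  have hη0 : 0 < η := by rw [hη]; linarith
  obtain ⟨J, hJ⟩ := exists_nat_gt (max 1 (κ / η))
  have hJ1 : (1 : ℝ) < J := (le_max_left _ _).trans_lt hJ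
  have hJκ : κ / η < J := (le_max_right _ _).trans_lt hJ
  set μ : ℝ := 1 / (2 * J) with hμ
  have hμ0 : 0 < μ := by positivity
  have hκμ : 2 * κ * μ ≤ η := by
    rw [div_lt_iff₀ hη0] at hJκ
    rw [hμ]
    have : 2 * κ * (1 / (2 * J)) = κ / J := by field_simp
    rw [this, div_le_iff₀ (by linarith)]
    linarith
  have hJμ : J * μ = 1 / 2 := by rw [hμ]; field_simp
  -- each layer
  have hlayer : ∀ j : ℕ, ∃ C : ℝ, 0 ≤ C ∧ ∀ T : ℝ, 1 ≤ T → ∀ S : Finset ℂ,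
      (∀ z ∈ S, XX z = 0 ∧ |z.im| ≤ T ∧ j * μ ≤ |z.re| ∧ |z.re| < (j + 1) * μ) →
      ∑ z ∈ S, Mz z * T ^ (2 * κ * |z.re|) ≤ C * T ^ (2 - η) := by
    intro j
    by_cases hj : (j : ℝ) * μ ≤ δ0
    swap
    · refine ⟨0, le_rfl, fun T hT S hS => ?_⟩
      rw [zero_mul]
      refine (Finset.sum_eq_zero fun z hz1 => ?_).le
      exfalso
      obtain ⟨a1, a2, a3, a4⟩ := hS z hz1
      exact hj (a3.trans (hz z a1))
    have hjμ0 : (0:ℝ) ≤ j * μ := by positivity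
    have hf := hmin' (j * μ) hjμ0 hj
    obtain ⟨C, hC, hcn⟩ := cnt_margin hjμ0 (hj.trans h02) hη0
    refine ⟨C, hC, fun T hT S hS => ?_⟩
    have hT0 : 0 < T := by linarith
    calc ∑ z ∈ S, Mz z * T ^ (2 * κ * |z.re|)
        ≤ ∑ z ∈ S, Mz z * T ^ (2 * κ * (j * μ) + η) := by
          refine Finset.sum_le_sum fun z hz1 => ?_
          have h3 := (hS z hz1).2.2.2
          apply mul_le_mul_of_nonneg_left _ (Mz_nn z)
          apply Real.rpow_le_rpow_of_exponent_le hT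
          nlinarith
      _ = (∑ z ∈ S, Mz z) * T ^ (2 * κ * (j * μ) + η) := by rw [Finset.sum_mul]
      _ ≤ (C * T ^ (1 - 4 * (j * μ) ^ 2 + η)) * T ^ (2 * κ * (j * μ) + η) := by
          gcongr
          exact hcn T hT S fun z hz1 => ⟨(hS z hz1).1, (hS z hz1).2.2.1, (hS z hz1).2.1⟩
      _ = C * T ^ ((1 - 4 * (j * μ) ^ 2 + η) + (2 * κ * (j * μ) + η)) := by
          rw [mul_assoc, ← Real.rpow_add hT0]
      _ ≤ C * T ^ (2 - η) := by
          gcongr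
          linarith
  choose Cj hCj0 hCj using hlayer
  refine ⟨η, hη0, ∑ j ∈ range (J + 1), Cj j, Finset.sum_nonneg fun j _ => hCj0 j, fun T hT S hS => ?_⟩
  have hT0 : 0 < T := by linarith
  rw [restrict S (fun z => T ^ (2 * κ * |z.re|))]
  rw [← Finset.sum_fiberwise_of_maps_to (s := S.filter (fun z => XX z = 0)) (t := range (J + 1))
    (g := fun z => ⌊|z.re| / μ⌋₊) (fun z hz1 => by
      rw [Finset.mem_filter] at hz1
      rw [Finset.mem_range, Nat.floor_lt (by positivity), div_lt_iff₀ hμ0]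
      have h3 := (hz z hz1.2).trans h02
      push_cast
      rw [add_mul, hJμ, one_mul]
      linarith)]
  rw [Finset.sum_mul]
  refine Finset.sum_le_sum fun j _ => ?_
  refine hCj j T hT _ fun z hz1 => ?_
  rw [Finset.mem_filter, Finset.mem_filter] at hz1
  have h3 : (j : ℝ) ≤ |z.re| / μ := by
    rw [← hz1.2]
    exact Nat.floor_le (by positivity)
  have h4 : |z.re| / μ < j + 1 := by
    rw [← hz1.2]
    exact Nat.lt_floor_add_one _
  rw [le_div_iff₀ hμ0] at h3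
  rw [div_lt_iff₀ hμ0] at h4
  exact ⟨hz1.1.2, hS z hz1.1.1, h3, h4⟩

end Pool.Agent.Zk41.Li
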