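import Pool.Agent.Zk41.LiB

/-!
# Positivity and negativity of the Li coefficients of zeta
-/

set_option autoImplicit false

open Complex Filter Topology Finset
open scoped ComplexConjugate
open Pool.Agent.H24R2.JP (XX)
open Pool.Agent.Y23

namespace Pool.Agent.Zk41.Li

lemma asy_le {κ κ' : ℝ} (hκ : 0 < κ) (h : κ < κ') : ∀ᶠ a : ℝ in atTop,
    κ * a * Real.log a ≤ κ' * (a - 1 / 2) * Real.log (a - 1 / 2) := by
  obtain ⟨d, hd0, hd1, hd⟩ : ∃ d : ℝ, 0 < d ∧ d < 1 ∧ κ ≤ κ' * (1 - d) ^ 2 := by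
    have hκ' : 0 < κ' := by linarith
    have hk : 0 < (κ' - κ) / (2 * κ') := by apply div_pos <;> linarith
    have hk1 : (κ' - κ) / (2 * κ') < 1 := by rw [div_lt_one (by linarith)]; linarith
    refine ⟨(κ' - κ) / (2 * κ'), hk, hk1, ?_⟩
    set e := (κ' - κ) / (2 * κ') with he
    have h2 : 2 * κ' * e = κ' - κ := by rw [he]; field_simp
    nlinarith [sq_nonneg e]
  have e1 : ∀ᶠ a : ℝ in atTop, (1 / 2) / d ≤ a := eventually_ge_atTop _
  have e2 := Real.tendsto_log_atTop.eventually_ge_atTop (Real.log 2 / d)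
  filter_upwards [e1, e2, eventually_ge_atTop (1 : ℝ)] with a h1 h2 ha1
  rw [div_le_iff₀ hd0] at h1 h2
  have hL : 0 ≤ Real.log a := Real.log_nonneg ha1
  have h4 : (1 - d) * a ≤ a - 1 / 2 := by linarith
  have h5 : (1 - d) * Real.log a ≤ Real.log (a - 1 / 2) := by
    have h6 : Real.log (a / 2) ≤ Real.log (a - 1 / 2) := Real.log_le_log (by positivity) (by linarith)
    rw [Real.log_div (by positivity) (by norm_num)] at h6
    linarith
  have h7 : 0 ≤ (1 - d) * a := by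
    have : 0 ≤ 1 - d := by linarith
    positivity
  have h8 : 0 ≤ (1 - d) * Real.log a := mul_nonneg (by linarith) hL
  have h9 : ((1 - d) * a) * ((1 - d) * Real.log a) ≤ (a - 1 / 2) * Real.log (a - 1 / 2) :=
    mul_le_mul h4 h5 h8 (h7.trans h4)
  have h10 : κ * (a * Real.log a) ≤ κ' * (1 - d) ^ 2 * (a * Real.log a) :=
    mul_le_mul_of_nonneg_right hd (by positivity)
  have hκ' : 0 < κ' := by linarith
  calc κ * a * Real.log a = κ * (a * Real.log a) := by ring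
    _ ≤ κ' * (1 - d) ^ 2 * (a * Real.log a) := h10
    _ = κ' * (((1 - d) * a) * ((1 - d) * Real.log a)) := by ring
    _ ≤ κ' * ((a - 1 / 2) * Real.log (a - 1 / 2)) := by gcongr
    _ = _ := by ring

lemma asy_ge {κ : ℝ} (hκ : 0 < κ) : ∀ᶠ a : ℝ in atTop,
    κ * (a - 1 / 2) * Real.log (a - 1 / 2) ≤ κ * a * Real.log a := by
  filter_upwards [eventually_ge_atTop (2 : ℝ)] with a ha
  have h1 : Real.log (a - 1 / 2) ≤ Real.log a := Real.log_le_log (by linarith) (by linarith)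
  have h2 : 0 ≤ Real.log (a - 1 / 2) := Real.log_nonneg (by linarith)
  have h3 : (a - 1 / 2) * Real.log (a - 1 / 2) ≤ a * Real.log a := by
    apply mul_le_mul _ h1 h2 <;> linarith
  rw [mul_assoc, mul_assoc]
  exact mul_le_mul_of_nonneg_left h3 hκ.le

lemma shift_tendsto : Tendsto (fun a : ℝ => a - 1 / 2) atTop atTop := by
  have := tendsto_atTop_add_const_right atTop (-(1 / 2 : ℝ)) tendsto_id
  simpa [sub_eq_add_neg] using this

/-- **Positivity.** -/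
theorem pos {κ κ' : ℝ} (hκ : 0 < κ) (hκκ : κ < κ') {δ0 : ℝ} (h0 : 0 ≤ δ0)
    (h02 : δ0 ≤ 1 / 2) (hz : ∀ z, XX z = 0 → |z.re| ≤ δ0)
    (hc : ∀ δ : ℝ, 0 ≤ δ → δ ≤ δ0 → (1 - 4 * δ ^ 2) + 2 * κ' * δ < 2) :
    ∃ c : ℝ, 0 < c ∧ ∀ᶠ a : ℝ in atTop, ∀ n : ℕ, 1 ≤ n → (n : ℝ) ≤ κ * a * Real.log a →
      c * n * a * Real.log a ≤ Pool.Agent.N831.LI.li Mz (a - 1 / 2) n := by
  have hκ' : 0 < κ' := by linarith
  obtain ⟨c, hcp, h1⟩ := Pool.Agent.N831.LI.direct zs hκ' (dn hκ' h0 h02 hz hc)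
  refine ⟨c / 2, by positivity, ?_⟩
  filter_upwards [shift_tendsto.eventually h1, asy_le hκ hκκ, asy_le (κ := 1 / 2) (κ' := 1) (by norm_num)
    (by norm_num)] with a k1 k2 k3
  intro n hn hnk
  have h2 := k1 n hn (hnk.trans k2)
  refine le_trans ?_ h2
  have hn0 : (0 : ℝ) ≤ n := Nat.cast_nonneg n
  have h3 : c * n * (1 / 2 * a * Real.log a) ≤ c * n * (1 * (a - 1 / 2) * Real.log (a - 1 / 2)) :=
    mul_le_mul_of_nonneg_left k3 (by positivity)
  linarith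

/-- **Negativity.** -/
theorem neg {κ : ℝ} (hκ : 0 < κ) {z : ℂ} (hz : XX z = 0) (hre : 1 < κ * |z.re|) :
    ∀ᶠ a : ℝ in atTop, ∃ n : ℕ, 1 ≤ n ∧ (n : ℝ) ≤ κ * a * Real.log a ∧
      Pool.Agent.N831.LI.li Mz (a - 1 / 2) n < 0 := by
  have hM : Mz z ≠ 0 := by
    have := Mz_one_le hz
    intro h
    rw [h] at this
    norm_num at this
  have h1 := Pool.Agent.N831.LI.converse zs hκ hM hre
  filter_upwards [shift_tendsto.eventually h1, asy_ge hκ] with a h2 k2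
  obtain ⟨n, hn, hnk, hneg⟩ := h2
  exact ⟨n, hn, hnk.trans k2, hneg⟩

/-- the condition in the range `[0, d]` -/
lemma cond {κ d : ℝ} (hd : 0 < d) (hd2 : d ≤ 1 / 2) (hκ : κ * (2 * d) < 1 + 4 * d ^ 2) (hκ0 : 0 < κ) :
    ∀ δ : ℝ, 0 ≤ δ → δ ≤ d → (1 - 4 * δ ^ 2) + 2 * κ * δ < 2 := by
  intro δ h1 h2
  -- `2 κ δ < 1 + 4 δ²`: multiply by `d`
  have h3 : d * (2 * κ * δ) ≤ δ * (1 + 4 * d ^ 2) := by nlinarith
  have h4 : δ * (1 + 4 * d ^ 2) ≤ d * (1 + 4 * δ ^ 2) := by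
    -- `(d - δ)(1 - 4 d δ) ≥ 0`
    have h5 : 0 ≤ (d - δ) * (1 - 4 * d * δ) := by
      apply mul_nonneg (by linarith)
      nlinarith
    nlinarith
  rcases h1.eq_or_lt with h1 | h1
  · rw [← h1]
    norm_num
  have h6 : d * (2 * κ * δ) < δ * (1 + 4 * d ^ 2) := by nlinarith
  have h7 : d * (2 * κ * δ) < d * (1 + 4 * δ ^ 2) := lt_of_lt_of_le h6 h4
  have h8 := lt_of_mul_lt_mul_left h7 hd.le
  linarith

end Pool.Agent.Zk41.Li
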