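import Pool.Agent.K3h89.SX.All

/-!
# Narrow progressions in all windows (helper41): the common prime factors, for windows of length `≥ n ^ (1 / C)`
-/

set_option autoImplicit false

open Finset Filter Topology

namespace Pool.Agent.Zk41.NP

open Pool.Agent.TH423.SH (PS)
open Pool.Agent.K3h89.SZ (SysP CF lar_cnt lar_union)
open Pool.Agent.K3h89.SX
open Pool.Agent.Y677.RSZ (ev_log)

open Classical in
/-- `S_BADX` for `n ≤ H ^ C` -/
theorem badC (h1 : S_MOM) (h2 : S_SYSX) (C : ℕ) (hC : 1 ≤ C) (B : ℕ) (ε : ℝ) (hε : 0 < ε) :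
    ∃ H₀ : ℕ, ∀ H : ℕ, H₀ ≤ H → ∀ n : ℕ, H ≤ n → n ≤ H ^ C →
  ∀ W N : ℕ, 1 ≤ W → (W : ℝ) ≤ Real.log H ^ B → Real.log H ^ 8 ≤ N → (N : ℝ) ≤ Real.log H ^ B →
    (∀ p : ℕ, p.Prime → (p : ℝ) ≤ Real.log N → p ∣ W) →
    (((Icc 1 N).filter (fun j : ℕ =>
      ε < ∑ p ∈ (PS W H).filter (fun p : ℕ => CF (Fl n) (W * j) p), (1 : ℝ) / p)).card : ℝ) ≤
      (N : ℝ) ^ (4 / 5 : ℝ) := by
  classical
  obtain ⟨N₀, hMOM⟩ := h1 (ε / 4) (by positivity)
  have hlog : Filter.Tendsto (fun H : ℕ => Real.log H) Filter.atTop Filter.atTop :=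
    Real.tendsto_log_atTop.comp tendsto_natCast_atTop_atTop
  obtain ⟨H₀, hH₀⟩ := Filter.eventually_atTop.1 (((((hlog.eventually_ge_atTop
    (Real.exp (Real.exp (4 / ε)))).and (hlog.eventually_ge_atTop (N₀ : ℝ))).and
    ((hlog.eventually_ge_atTop ((2 : ℝ) ^ 20)).and (hlog.eventually_ge_atTop (16 * (C + 1) / ε)))).and
    (ev_log (2 * B) 2 1 one_pos)).and (Filter.eventually_ge_atTop (5 : ℕ)))
  refine ⟨H₀, ?_⟩
  intro H hH n hHn hnH W N hW hWB hlN hNB hpW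
  obtain ⟨⟨⟨⟨e1, e2⟩, e3, e4⟩, e5⟩, e6⟩ := hH₀ H hH
  obtain ⟨l, hl⟩ : ∃ l : ℝ, l = Real.log H := ⟨_, rfl⟩
  rw [← hl] at e1 e2 e3 e4 e5 hWB hlN hNB
  have hl20 : (1048576 : ℝ) ≤ l := by norm_num at e3; linarith
  have hl0 : 0 < l := by linarith
  have hl1 : 1 ≤ l := by linarith
  have hN1 : l ≤ N := le_trans (le_self_pow₀ hl1 (by norm_num)) hlN
  have hN0 : (0 : ℝ) < N := by linarith
  have hlogN : Real.exp (4 / ε) ≤ Real.log N := by
    have h3 := Real.log_le_log (Real.exp_pos _) (e1.trans hN1)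
    rwa [Real.log_exp] at h3
  have hlogN1 : 1 < Real.log N := by
    refine lt_of_lt_of_le ?_ hlogN
    rw [Real.one_lt_exp_iff]
    positivity
  have hllN : 4 / ε ≤ Real.log (Real.log N) := by
    have h3 := Real.log_le_log (Real.exp_pos _) hlogN
    rwa [Real.log_exp] at h3
  have hNN₀ : N₀ ≤ N := by
    have : (N₀ : ℝ) ≤ N := e2.trans hN1
    exact_mod_cast this
  obtain ⟨z, hz⟩ : ∃ z : ℕ, z = Nat.sqrt (Nat.sqrt N) := ⟨_, rfl⟩
  have hz4 : z ^ 4 ≤ N := by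
    have h3 : z * z ≤ Nat.sqrt N := by rw [hz]; exact Nat.sqrt_le _
    have h4 : Nat.sqrt N * Nat.sqrt N ≤ N := Nat.sqrt_le _
    calc z ^ 4 = (z * z) * (z * z) := by ring
      _ ≤ Nat.sqrt N * Nat.sqrt N := Nat.mul_le_mul h3 h3
      _ ≤ N := h4
  have hz4' : N < (z + 1) ^ 4 := by
    have h3 : Nat.sqrt N < (z + 1) * (z + 1) := by rw [hz]; exact Nat.lt_succ_sqrt _
    have h4 : N < (Nat.sqrt N + 1) * (Nat.sqrt N + 1) := Nat.lt_succ_sqrt _
    calc N < (Nat.sqrt N + 1) * (Nat.sqrt N + 1) := h4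
      _ ≤ ((z + 1) * (z + 1)) * ((z + 1) * (z + 1)) := Nat.mul_le_mul h3 h3
      _ = (z + 1) ^ 4 := by ring
  have hzl : l ^ 2 / 2 ≤ z := by
    have h3 : l ^ 8 < ((z : ℝ) + 1) ^ 4 := lt_of_le_of_lt hlN (by exact_mod_cast hz4')
    have h4 : l ^ 2 < (z : ℝ) + 1 := by
      by_contra hcon
      push Not at hcon
      have h5 : ((z : ℝ) + 1) ^ 4 ≤ (l ^ 2) ^ 4 := pow_le_pow_left₀ (by positivity) hcon 4
      have h6 : (l ^ 2) ^ 4 = l ^ 8 := by ring
      linarith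
    nlinarith
  have hz3 : (3 : ℝ) ≤ z := by nlinarith
  have hz0 : (0 : ℝ) < z := by linarith
  have hlogz : 1 ≤ Real.log z := by
    rw [Real.le_log_iff_exp_le hz0]
    linarith [Real.exp_one_lt_d9]
  have hH0 : (0 : ℝ) < H := by exact_mod_cast (show 0 < H by omega)
  have hH5 : 5 ≤ H := e6
  rw [Real.rpow_one] at e5
  -- the products
  have hWj : ∀ j : ℕ, j ≤ N → 2 * (W * j) ≤ H := by
    intro j hj
    have h3 : (j : ℝ) ≤ l ^ B := le_trans (by exact_mod_cast hj) hNB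
    have h4 : (W : ℝ) * j ≤ l ^ (2 * B) := by
      calc (W : ℝ) * j ≤ l ^ B * l ^ B := by gcongr
        _ = l ^ (2 * B) := by rw [← pow_add, two_mul]
    have h5 : (2 : ℝ) * (W * j) ≤ H := by linarith
    exact_mod_cast h5
  have hlogm : ∀ m : ℕ, m ≤ H ^ (C + 1) → Real.log m ≤ (C + 1) * l := by
    intro m hm
    rcases Nat.eq_zero_or_pos m with rfl | hm0
    · simp
      positivity
    · have h3 : Real.log m ≤ Real.log ((H : ℝ) ^ (C + 1)) :=
        Real.log_le_log (by exact_mod_cast hm0) (by exact_mod_cast hm)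
      rw [Real.log_pow, ← hl] at h3
      exact_mod_cast h3
  have hbig : (C + 1) * l / (z * Real.log z) ≤ ε / 8 := by
    have h3 : l ^ 2 / 2 ≤ z * Real.log z := by nlinarith
    have h4 : 16 * ((C : ℝ) + 1) ≤ ε * l := by
      rw [div_le_iff₀ hε] at e4
      linarith
    rw [div_le_iff₀ (by positivity)]
    calc ((C : ℝ) + 1) * l ≤ ε / 8 * (l ^ 2 / 2) := by nlinarith
      _ ≤ ε / 8 * (z * Real.log z) := by gcongr
  set bad1 := (Icc 1 N).filter (fun k : ℕ => ε / 4 < ∑ p ∈ (Icc 1 z).filter (fun p : ℕ =>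
    p.Prime ∧ Real.log N < p ∧ ¬ p ∣ W ∧ (p : ℤ) ∣ (n : ℤ) + W * k), (1 : ℝ) / p) with hb1
  set bad2 := (Icc 1 N).filter (fun k : ℕ => ε / 4 < ∑ p ∈ (Icc 1 z).filter (fun p : ℕ =>
    p.Prime ∧ Real.log N < p ∧ ¬ p ∣ W ∧ (p : ℤ) ∣ (-(n : ℤ)) + W * k), (1 : ℝ) / p) with hb2
  have hc1 : (bad1.card : ℝ) ≤ (N : ℝ) ^ (3 / 4 : ℝ) := by
    rw [hb1]
    exact hMOM (n : ℤ) W N z hNN₀ hz4
  have hc2 : (bad2.card : ℝ) ≤ (N : ℝ) ^ (3 / 4 : ℝ) := by
    rw [hb2]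
    exact hMOM (-(n : ℤ)) W N z hNN₀ hz4
  have hsub : (Icc 1 N).filter (fun j : ℕ =>
      ε < ∑ p ∈ (PS W H).filter (fun p : ℕ => CF (Fl n) (W * j) p), (1 : ℝ) / p) ⊆ bad1 ∪ bad2 := by
    intro j hj
    rw [mem_filter] at hj
    obtain ⟨hjN, hjε⟩ := hj
    by_contra hcon
    rw [mem_union, not_or, hb1, hb2, mem_filter, mem_filter, not_and, not_and] at hcon
    have g1 := not_lt.1 (hcon.1 hjN)
    have g2 := not_lt.1 (hcon.2 hjN)
    rw [mem_Icc] at hjN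
    have hWjH := hWj j hjN.2
    set S0 := (PS W H).filter (fun p : ℕ => CF (Fl n) (W * j) p) with hS0
    have hS0p : ∀ p ∈ S0, p.Prime ∧ ¬ p ∣ W ∧ Real.log N < p := by
      intro p hp
      rw [hS0, mem_filter] at hp
      have hp1 := hp.1
      unfold PS at hp1
      rw [mem_filter] at hp1
      refine ⟨hp1.2.1, hp1.2.2, ?_⟩
      by_contra h3
      push Not at h3
      exact hp1.2.2 (hpW p hp1.2.1 h3)
    set T1 := S0.filter (fun p => p ∣ j) with hT1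
    set T2 := (Icc 1 z).filter (fun p : ℕ =>
      p.Prime ∧ Real.log N < p ∧ ¬ p ∣ W ∧ (p : ℤ) ∣ (n : ℤ) + W * j) with hT2
    set T3 := (Icc 1 z).filter (fun p : ℕ =>
      p.Prime ∧ Real.log N < p ∧ ¬ p ∣ W ∧ (p : ℤ) ∣ (-(n : ℤ)) + W * j) with hT3
    set T4 := S0.filter (fun p => z < p ∧ p ∣ n + W * j) with hT4
    set T5 := S0.filter (fun p => z < p ∧ p ∣ n - W * j) with hT5
    have k1 : ∑ p ∈ T1, (1 : ℝ) / p ≤ ε / 4 := by
      have h3 := big_primes T1 j (by omega) (Real.log N) (Real.log N) hlogN1 (by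
        intro p hp
        rw [hT1, mem_filter] at hp
        exact ⟨(hS0p p hp.1).1, hp.2, (hS0p p hp.1).2.2.le⟩)
        (Real.log_le_log (by exact_mod_cast hjN.1) (by exact_mod_cast hjN.2))
      refine h3.trans ?_
      have h4 : 0 < Real.log N := by linarith
      have h5 : 0 < Real.log (Real.log N) := lt_of_lt_of_le (by positivity) hllN
      rw [div_le_iff₀ (by positivity)]
      rw [div_le_iff₀ hε] at hllN
      nlinarith
    have hnH3 : n + W * j ≤ H ^ (C + 1) := by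
      have h3 : H ^ C + H ≤ H ^ (C + 1) := by
        have h4 : H ≤ H ^ C := by
          calc H = H ^ 1 := (pow_one H).symm
            _ ≤ H ^ C := Nat.pow_le_pow_right (by omega) hC
        calc H ^ C + H ≤ H ^ C + H ^ C := by omega
          _ = H ^ C * 2 := by ring
          _ ≤ H ^ C * H := Nat.mul_le_mul_left _ (by omega)
          _ = H ^ (C + 1) := (pow_succ H C).symm
      omega
    have k4 : ∑ p ∈ T4, (1 : ℝ) / p ≤ ε / 8 := by
      refine (big_primes T4 (n + W * j) (by omega) z ((C + 1) * l) (by linarith) ?_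
        (hlogm _ hnH3)).trans hbig
      intro p hp
      rw [hT4, mem_filter] at hp
      exact ⟨(hS0p p hp.1).1, hp.2.2, by exact_mod_cast hp.2.1.le⟩
    have k5 : ∑ p ∈ T5, (1 : ℝ) / p ≤ ε / 8 := by
      refine (big_primes T5 (n - W * j) (by omega) z ((C + 1) * l) (by linarith) ?_
        (hlogm _ (by omega))).trans hbig
      intro p hp
      rw [hT5, mem_filter] at hp
      exact ⟨(hS0p p hp.1).1, hp.2.2, by exact_mod_cast hp.2.1.le⟩
    have hcov : S0 ⊆ (((T1 ∪ T2) ∪ T3) ∪ T4) ∪ T5 := by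
      intro p hp
      obtain ⟨q1, q2, q3⟩ := hS0p p hp
      have hCF : CF (Fl n) (W * j) p := by
        have hp' := hp
        rw [hS0, mem_filter] at hp'
        exact hp'.2
      rcases (h2 n).2 (W * j) p q1 hCF with hd | hd | hd
      · have hj' : p ∣ j := (q1.dvd_mul.1 hd).resolve_left q2
        have : p ∈ T1 := by rw [hT1, mem_filter]; exact ⟨hp, hj'⟩
        simp only [mem_union]
        tauto
      · push_cast at hd
        by_cases hpz : p ≤ z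
        · have : p ∈ T3 := by
            rw [hT3, mem_filter, mem_Icc]
            refine ⟨⟨q1.one_lt.le, hpz⟩, q1, q3, q2, ?_⟩
            have h3 : (-(n : ℤ)) + W * j = -((n : ℤ) - W * j) := by ring
            rw [h3, dvd_neg]
            exact hd
          simp only [mem_union]
          tauto
        · have : p ∈ T5 := by
            rw [hT5, mem_filter]
            refine ⟨hp, by omega, ?_⟩
            have h3 : ((n - W * j : ℕ) : ℤ) = (n : ℤ) - W * j := by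
              rw [Nat.cast_sub (by omega)]
              push_cast
              ring
            rw [← Int.natCast_dvd_natCast, h3]
            exact hd
          simp only [mem_union]
          tauto
      · push_cast at hd
        by_cases hpz : p ≤ z
        · have : p ∈ T2 := by
            rw [hT2, mem_filter, mem_Icc]
            exact ⟨⟨q1.one_lt.le, hpz⟩, q1, q3, q2, hd⟩
          simp only [mem_union]
          tauto
        · have : p ∈ T4 := by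
            rw [hT4, mem_filter]
            refine ⟨hp, by omega, ?_⟩
            rw [← Int.natCast_dvd_natCast]
            push_cast
            exact hd
          simp only [mem_union]
          tauto
    have h6 : ∑ p ∈ S0, (1 : ℝ) / p ≤ ∑ p ∈ (((T1 ∪ T2) ∪ T3) ∪ T4) ∪ T5, (1 : ℝ) / p :=
      sum_le_sum_of_subset_of_nonneg hcov fun _ _ _ => by positivity
    have h7 := sum_un (((T1 ∪ T2) ∪ T3) ∪ T4) T5
    have h8 := sum_un ((T1 ∪ T2) ∪ T3) T4
    have h9 := sum_un (T1 ∪ T2) T3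
    have h10 := sum_un T1 T2
    linarith
  have h3 : (((Icc 1 N).filter (fun j : ℕ =>
      ε < ∑ p ∈ (PS W H).filter (fun p : ℕ => CF (Fl n) (W * j) p), (1 : ℝ) / p)).card : ℝ) ≤
      bad1.card + bad2.card := by
    exact_mod_cast (card_le_card hsub).trans (card_union_le _ _)
  have h4 : (2 : ℝ) * (N : ℝ) ^ (3 / 4 : ℝ) ≤ (N : ℝ) ^ (4 / 5 : ℝ) := by
    have h5 : (N : ℝ) ^ (4 / 5 : ℝ) = (N : ℝ) ^ (1 / 20 : ℝ) * (N : ℝ) ^ (3 / 4 : ℝ) := by
      rw [← Real.rpow_add hN0]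
      norm_num
    have h6 : (2 : ℝ) ≤ (N : ℝ) ^ (1 / 20 : ℝ) := by
      have h7 : ((2 : ℝ) ^ 20) ^ (1 / 20 : ℝ) ≤ (N : ℝ) ^ (1 / 20 : ℝ) :=
        Real.rpow_le_rpow (by positivity) (e3.trans hN1) (by norm_num)
      rw [← Real.rpow_natCast, ← Real.rpow_mul (by norm_num)] at h7
      norm_num at h7
      linarith
    rw [h5]
    gcongr
  exact h3.trans (by linarith)

/-- the bound for the product of the three integers -/
lemma larN_bdC {n h H C : ℕ} (hC : 1 ≤ C) (h1 : 1 ≤ h) (hA : 2 * (h : ℝ) < H) (hn : H ≤ n)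
    (hn' : n ≤ H ^ C) (hH : 20 ≤ H) :
    Pool.Agent.K3h73.SX.larN n h ≠ 0 ∧
      |((Pool.Agent.K3h73.SX.larN n h : ℤ) : ℝ)| ≤ (H : ℝ) ^ (2 * C + 2) := by
  have h1' : (1 : ℝ) ≤ h := by exact_mod_cast h1
  have hn1 : (H : ℝ) ≤ n := by exact_mod_cast hn
  have hn2 : (n : ℝ) ≤ (H : ℝ) ^ C := by exact_mod_cast hn'
  have hH1 : (20 : ℝ) ≤ H := by exact_mod_cast hH
  have a2 : 0 < (n : ℝ) - h := by linarith
  have a3 : 0 < (n : ℝ) + h := by linarith
  have b1 : (h : ℝ) ≤ H := by linarith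
  have b2 : (n : ℝ) - h ≤ (H : ℝ) ^ C := by linarith
  have b3 : (n : ℝ) + h ≤ 2 * (H : ℝ) ^ C := by linarith
  have hcast : ((Pool.Agent.K3h73.SX.larN n h : ℤ) : ℝ) = h * ((n : ℝ) - h) * ((n : ℝ) + h) := by
    simp only [Pool.Agent.K3h73.SX.larN]
    push_cast
    ring
  have hpos : 0 < h * ((n : ℝ) - h) * ((n : ℝ) + h) := by positivity
  constructor
  · intro h0
    rw [h0] at hcast
    rw [← hcast] at hpos
    simp at hpos
  · rw [hcast, abs_of_pos hpos]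
    have hHC : (0 : ℝ) < (H : ℝ) ^ C := by positivity
    have c1 : (h : ℝ) * ((n : ℝ) - h) ≤ H * (H : ℝ) ^ C := mul_le_mul b1 b2 a2.le (by linarith)
    have c2 : (h : ℝ) * ((n : ℝ) - h) * ((n : ℝ) + h) ≤ H * (H : ℝ) ^ C * (2 * (H : ℝ) ^ C) :=
      mul_le_mul c1 b3 a3.le (by positivity)
    calc (h : ℝ) * ((n : ℝ) - h) * ((n : ℝ) + h) ≤ H * (H : ℝ) ^ C * (2 * (H : ℝ) ^ C) := c2
      _ = 2 * ((H : ℝ) * ((H : ℝ) ^ C * (H : ℝ) ^ C)) := by ring
      _ ≤ H * ((H : ℝ) * ((H : ℝ) ^ C * (H : ℝ) ^ C)) :=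
          mul_le_mul_of_nonneg_right (by linarith) (by positivity)
      _ = (H : ℝ) ^ (2 * C + 2) := by
          rw [show 2 * C + 2 = 1 + (1 + (C + C)) by omega, pow_add, pow_add, pow_add, pow_one]

open Classical in
/-- `S_LARX` for `n ≤ H ^ C` -/
theorem larC (hS : S_SYSX) (C : ℕ) (hC : 1 ≤ C) (B : ℕ) (η : ℝ) (hη : 0 < η) :
    ∃ H₀ : ℕ, ∀ H : ℕ, H₀ ≤ H → ∀ n : ℕ, H ≤ n → n ≤ H ^ C →
  ∑ p ∈ (Icc 1 H).filter (fun p : ℕ => p.Prime ∧ Real.exp (√(Real.log H)) ≤ p ∧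
    ∃ h : ℕ, 1 ≤ h ∧ (h : ℝ) ≤ Real.log H ^ B ∧ CF (Fl n) h p), (1 : ℝ) / p ≤ η := by
  classical
  obtain ⟨D, hD⟩ : ∃ D : ℕ, D = 2 * C + 2 := ⟨_, rfl⟩
  have hD0 : (0 : ℝ) < D := by
    rw [hD]
    positivity
  have hcast : Tendsto (fun H : ℕ => (H : ℝ)) atTop atTop := tendsto_natCast_atTop_atTop
  have hlog : Tendsto (fun H : ℕ => Real.log (H : ℝ)) atTop atTop :=
    Real.tendsto_log_atTop.comp hcast
  have hsq : Tendsto (fun H : ℕ => √(Real.log (H : ℝ))) atTop atTop :=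
    Real.tendsto_sqrt_atTop.comp hlog
  have e1 : ∀ᶠ H : ℕ in atTop, 2 * Real.log H ^ B < H := by
    have h1 : ∀ᶠ x : ℝ in atTop, ‖Real.log x ^ B‖ ≤ (1 / 4 : ℝ) * ‖id x‖ :=
      (Real.isLittleO_pow_log_id_atTop (n := B)).def (by positivity)
    filter_upwards [hcast.eventually h1, hcast.eventually (eventually_gt_atTop 0)] with H h2 h3
    have h3' : (0 : ℝ) < H := h3
    rw [id, Real.norm_of_nonneg h3'.le] at h2
    have h4 : Real.log (H : ℝ) ^ B ≤ 1 / 4 * H := le_trans (Real.le_norm_self _) h2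
    linarith
  have e2 : ∀ᶠ H : ℕ in atTop,
      √(Real.log (H : ℝ)) ^ (2 * B + 1) * Real.exp (-√(Real.log (H : ℝ))) < η / D := by
    have h1 := (Real.tendsto_pow_mul_exp_neg_atTop_nhds_zero (2 * B + 1)).comp hsq
    exact h1.eventually (gt_mem_nhds (by positivity))
  have e3 : ∀ᶠ H : ℕ in atTop, (4 : ℝ) ≤ Real.log (H : ℝ) := hlog.eventually_ge_atTop 4
  obtain ⟨H₀, hH₀⟩ := eventually_atTop.1 (e1.and (e2.and (e3.and (eventually_ge_atTop 20))))
  refine ⟨H₀, fun H hH n hn hn' => ?_⟩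
  obtain ⟨f1, f2, f3, f4⟩ := hH₀ H hH
  set L : ℝ := Real.log (H : ℝ) with hL
  have hL0 : 0 ≤ L := by linarith
  set E : ℝ := Real.exp (√L) with hE
  have hu : 0 < √L := Real.sqrt_pos.2 (by linarith)
  have hE0 : 0 < E := Real.exp_pos _
  set T : ℕ → Finset ℕ := fun h => (Icc 1 H).filter (fun p : ℕ => p.Prime ∧ E ≤ p ∧
    (p : ℤ) ∣ Pool.Agent.K3h73.SX.larN n h) with hT
  -- the size of `T h`
  have hcard : ∀ h ∈ Icc 1 ⌊L ^ B⌋₊, ((T h).card : ℝ) ≤ D * √L := by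
    intro h hh
    obtain ⟨hh1, hh2⟩ := Finset.mem_Icc.1 hh
    have hhL : (h : ℝ) ≤ L ^ B := (Nat.le_floor_iff (by positivity)).1 hh2
    have hhA : 2 * (h : ℝ) < H := by linarith
    obtain ⟨g1, g2⟩ := larN_bdC hC hh1 hhA hn hn' f4
    rw [← hD] at g2
    have g3 := lar_cnt g1 hE0.le g2 (T h) fun p hp => (Finset.mem_filter.1 hp).2
    have g4 := Real.log_le_log (pow_pos hE0 _) g3
    rw [Real.log_pow, Real.log_pow, hE, Real.log_exp, ← hL] at g4
    have g5 : L = √L * √L := (Real.mul_self_sqrt hL0).symm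
    have g6 : ((T h).card : ℝ) * √L ≤ (D * √L) * √L := by
      rw [mul_assoc, ← g5]
      exact_mod_cast g4
    exact le_of_mul_le_mul_right g6 hu
  -- the sum
  have hsub : ((Icc 1 H).filter (fun p : ℕ => p.Prime ∧ Real.exp (√(Real.log H)) ≤ p ∧
      ∃ h : ℕ, 1 ≤ h ∧ (h : ℝ) ≤ Real.log H ^ B ∧ CF (Fl n) h p)) ⊆
      (Icc 1 ⌊L ^ B⌋₊).biUnion T := by
    intro p hp
    obtain ⟨hp1, hp2, hp3, h, hh1, hh2, hh3⟩ := Finset.mem_filter.1 hp
    refine Finset.mem_biUnion.2 ⟨h, Finset.mem_Icc.2 ⟨hh1, Nat.le_floor hh2⟩,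
      Finset.mem_filter.2 ⟨hp1, hp2, hp3, ?_⟩⟩
    unfold Pool.Agent.K3h73.SX.larN
    rcases (hS n).2 h p hp2 hh3 with h1 | h1 | h1
    · have h2 : (p : ℤ) ∣ (h : ℤ) := Int.natCast_dvd_natCast.2 h1
      exact (h2.mul_right _).mul_right _
    · exact (h1.mul_left _).mul_right _
    · exact h1.mul_left _
  have hin : ∀ h ∈ Icc 1 ⌊L ^ B⌋₊, ∑ p ∈ T h, (1 : ℝ) / p ≤ D * √L * Real.exp (-√L) := by
    intro h hh
    have h1 : ∀ p ∈ T h, (1 : ℝ) / p ≤ Real.exp (-√L) := by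
      intro p hp
      obtain ⟨-, -, h2, -⟩ := Finset.mem_filter.1 hp
      rw [Real.exp_neg, ← hE, one_div]
      exact inv_anti₀ hE0 h2
    calc ∑ p ∈ T h, (1 : ℝ) / p ≤ ∑ _p ∈ T h, Real.exp (-√L) := Finset.sum_le_sum h1
      _ = (T h).card * Real.exp (-√L) := by rw [Finset.sum_const, nsmul_eq_mul]
      _ ≤ D * √L * Real.exp (-√L) :=
        mul_le_mul_of_nonneg_right (hcard h hh) (Real.exp_pos _).le
  calc _ ≤ ∑ p ∈ (Icc 1 ⌊L ^ B⌋₊).biUnion T, (1 : ℝ) / p :=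
        Finset.sum_le_sum_of_subset_of_nonneg hsub fun _ _ _ => by positivity
    _ ≤ ∑ h ∈ Icc 1 ⌊L ^ B⌋₊, ∑ p ∈ T h, (1 : ℝ) / p :=
        lar_union _ _ _ fun _ => by positivity
    _ ≤ ∑ _h ∈ Icc 1 ⌊L ^ B⌋₊, D * √L * Real.exp (-√L) := Finset.sum_le_sum hin
    _ = (⌊L ^ B⌋₊ : ℝ) * (D * √L * Real.exp (-√L)) := by
        rw [Finset.sum_const, nsmul_eq_mul, Nat.card_Icc, Nat.add_sub_cancel]
    _ ≤ L ^ B * (D * √L * Real.exp (-√L)) :=
        mul_le_mul_of_nonneg_right (Nat.floor_le (by positivity)) (by positivity)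
    _ = D * (√L ^ (2 * B + 1) * Real.exp (-√L)) := by
        have h1 : √L ^ (2 * B + 1) = L ^ B * √L := by
          rw [pow_succ, pow_mul, Real.sq_sqrt hL0]
        rw [h1]
        ring
    _ ≤ D * (η / D) := by gcongr
    _ = η := by field_simp

end Pool.Agent.Zk41.NP
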