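import Pool.Agent.Zk41.NP1

/-!
# Narrow progressions in all windows (helper41): dense sets
-/

set_option autoImplicit false

open Finset Filter

namespace Pool.Agent.Zk41.NP

open Pool.Agent.TH423.SH (PS)
open Pool.Agent.Y677.RSZ (rt V)
open Pool.Agent.K3h89.SZ (SysP CF strip S_STRIP)
open Pool.Agent.K3h89.SX

lemma sysP_mono {g g' : ℕ} (h : g ≤ g') {F : ℤ → ℤ} (hF : SysP g F) : SysP g' F := by
  exact ⟨hF.per, fun p hp => ⟨(hF.root p hp).1.trans h, (hF.root p hp).2⟩⟩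

set_option maxHeartbeats 1600000 in
/-- dense sets of primes `p` in the windows `(Y, Y + H]`, `H ≥ n ^ (1 / C)` -/
theorem dense_int (C : ℕ) (hC : 1 ≤ C) (k : ℕ) (δ κ : ℝ) (hδ : 0 < δ) (hκ : 0 < κ) :
    ∃ B n₀ : ℕ, ∀ n : ℕ, n₀ ≤ n → Even n → ∀ Y H : ℕ, n ≤ H ^ C → Y + H < n →
    ∀ S : Finset ℕ, (∀ p ∈ S, p.Prime ∧ Y < p ∧ p ≤ Y + H ∧ (n : ℝ) ^ δ ≤ p ∧
      ∀ q : ℕ, q.Prime → q ∣ (n - p) → (n : ℝ) ^ δ ≤ q) →
    κ * (sg n * (H / Real.log n ^ 2)) ≤ S.card →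
    ∃ a d : ℕ, 1 ≤ d ∧ (d : ℝ) ≤ Real.log n ^ B ∧ ∀ i < k, a + i * d ∈ S := by
  classical
  have hSTRIP : S_STRIP := Pool.Agent.K3h89.SZ.stripP
  have hSYS : S_SYSX := Pool.Agent.K3h73.SX.sysX
  obtain ⟨K, hK, hV⟩ := vX
  have hC0 : (0 : ℝ) < C := by exact_mod_cast hC
  obtain ⟨εE, hεE, B, H₂, hE⟩ := engX_all (max k 2) (4 * C) δ (κ / (2 * K * C ^ 2)) (le_max_right _ _)
    hδ (by positivity)
  obtain ⟨H₃, hX⟩ := badC mom hSYS C hC B εE hεE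
  obtain ⟨H₄, hL⟩ := larC hSYS C hC B (1 / 20) (by norm_num)
  have hT := tendsto_natCast_atTop_atTop (R := ℝ)
  have hlT : Tendsto (fun H : ℕ => Real.log (H : ℝ)) atTop atTop := Real.tendsto_log_atTop.comp hT
  obtain ⟨H₅, hH₅⟩ := eventually_atTop.1 ((hlT.eventually_ge_atTop (9 : ℝ)).and (eventually_ge_atTop 10))
  refine ⟨B, (H₂ + H₃ + H₄ + H₅ + 1) ^ C + 1, fun n hn hev Y H hnH hYH S hS hSc => ?_⟩
  have hHH : H₂ + H₃ + H₄ + H₅ + 1 ≤ H := by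
    by_contra hcon
    have h1 : H ^ C ≤ (H₂ + H₃ + H₄ + H₅ + 1) ^ C := Nat.pow_le_pow_left (by omega) C
    omega
  obtain ⟨hexpH, hH10⟩ := hH₅ H (by omega)
  have hHn : H ≤ n := by omega
  have hH0 : (0 : ℝ) < H := by exact_mod_cast (by omega : 0 < H)
  have hn0 : (0 : ℝ) < n := by exact_mod_cast (by omega : 0 < n)
  have hH1' : (1 : ℝ) ≤ H := by exact_mod_cast (by omega : 1 ≤ H)
  have hn1' : (1 : ℝ) ≤ n := by exact_mod_cast (by omega : 1 ≤ n)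
  have hHnr : (H : ℝ) < n := by exact_mod_cast (by omega : H < n)
  have hlogH : 0 < Real.log H := by linarith
  have hlogHn : Real.log H ≤ Real.log n := Real.log_le_log hH0 hHnr.le
  have hlogn : 0 < Real.log n := by linarith
  have hlognH : Real.log n ≤ C * Real.log H := by
    have h1 : (n : ℝ) ≤ (H : ℝ) ^ C := by exact_mod_cast hnH
    have := Real.log_le_log hn0 h1
    rwa [Real.log_pow] at this
  have n9 : (10 : ℝ) ≤ Real.exp (√(Real.log H)) := by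
    have h11 : (3 : ℝ) ≤ √(Real.log H) := by
      apply Real.le_sqrt_of_sq_le
      linarith
    have h12 : (10 : ℝ) ≤ Real.exp 3 := by
      have h13 : (2.7182818283 : ℝ) < Real.exp 1 := Real.exp_one_gt_d9
      have e : Real.exp 3 = Real.exp 1 ^ 3 := by rw [← Real.exp_nat_mul]; norm_num
      rw [e]
      have : (2.7 : ℝ) ^ 3 ≤ Real.exp 1 ^ 3 := pow_le_pow_left₀ (by norm_num) (by linarith) 3
      linarith
    exact h12.trans (Real.exp_le_exp.2 h11)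
  -- the stripped function
  obtain ⟨bad, hbd⟩ : ∃ bad : ℕ → Prop, bad = fun p : ℕ => Real.exp (√(Real.log H)) ≤ p ∧
    ∃ h : ℕ, 1 ≤ h ∧ (h : ℝ) ≤ Real.log H ^ B ∧ CF (Fl n) h p := ⟨_, rfl⟩
  obtain ⟨F, hF⟩ : ∃ F : ℤ → ℤ, F = strip (Fl n) H bad := ⟨_, rfl⟩
  obtain ⟨s1, s2, s3, s4⟩ := hSTRIP 4 (Fl n) H bad ((hSYS n).1 hev)
  rw [← hF] at s1 s2 s3 s4
  have hCF : ∀ h p : ℕ, p.Prime → CF F h p → CF (Fl n) h p ∧ ¬ bad p := by
    rintro h p hp ⟨x, hx, hx'⟩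
    have g1 := (s2 x p hp).1 hx
    have g2 := (s2 (x + h) p hp).1 hx'
    exact ⟨⟨x, g1.2.2, g2.2.2⟩, g1.2.1⟩
  have hVb : V F 1 H ≤ 2 * V (Fl n) 1 H := by
    apply s4
    · have h1 := hL H (by omega) n hHn hnH
      have e : (1 : ℝ) / (4 * ((4 : ℕ) + 1)) = 1 / 20 := by norm_num
      rw [e]
      refine le_trans (le_of_eq ?_) h1
      apply sum_congr _ (fun _ _ => rfl)
      ext p
      simp only [mem_filter, hbd]
    · intro p hp hbp
      rw [hbd] at hbp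
      have h1 := n9.trans hbp.1
      have : (10 : ℕ) ≤ p := by exact_mod_cast h1
      omega
  have hVK := hV n H (by omega) hev (by omega)
  have hV0 : 0 < V F 1 H := Pool.Agent.K3h89.SZ.V_posP s1 1 H
  -- the density
  have hden : κ / (2 * K * C ^ 2) * (H * V F 1 H) ≤ S.card := by
    refine le_trans ?_ hSc
    have hsg : 0 ≤ sg n := by
      by_contra hcon
      push Not at hcon
      have h1 : K * sg n / Real.log H ^ 2 < 0 := div_neg_of_neg_of_pos (mul_neg_of_pos_of_neg hK hcon) (by positivity)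
      linarith
    have h1 : V F 1 H ≤ 2 * (K * sg n / Real.log H ^ 2) := by linarith
    have h5 : Real.log n ^ 2 ≤ C ^ 2 * Real.log H ^ 2 := by
      have := pow_le_pow_left₀ hlogn.le hlognH 2
      rwa [mul_pow] at this
    have h6 : (H : ℝ) * V F 1 H ≤ H * (2 * (K * sg n / Real.log H ^ 2)) :=
      mul_le_mul_of_nonneg_left h1 hH0.le
    calc κ / (2 * K * C ^ 2) * (H * V F 1 H) ≤ κ / (2 * K * C ^ 2) * (H * (2 * (K * sg n / Real.log H ^ 2))) :=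
          mul_le_mul_of_nonneg_left h6 (by positivity)
      _ = κ * (sg n * (H / (C ^ 2 * Real.log H ^ 2))) := by
          field_simp
      _ ≤ κ * (sg n * (H / Real.log n ^ 2)) := by
          gcongr
  -- the small primes
  have hsmall : (H : ℝ) ^ δ < (n : ℝ) ^ δ := Real.rpow_lt_rpow hH0.le hHnr hδ
  -- the theorem
  obtain ⟨a, d, hd1, hd2, hAP⟩ := hE F Y H S (sysP_mono (by omega) s1) (by omega)
    (by
      intro x hx
      rw [mem_Ioc] at hx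
      have hxn : x < n := by omega
      have hne : Fl n (x : ℤ) ≠ 0 := by
        unfold Fl
        rw [mul_ne_zero_iff]
        constructor <;> omega
      obtain ⟨g1, g2⟩ := s3 x hne
      refine ⟨g1, g2.trans ?_⟩
      unfold Fl
      rw [abs_mul, Nat.abs_cast, abs_of_nonneg (by omega)]
      have hnC : (n : ℤ) ≤ (H : ℤ) ^ C := by exact_mod_cast hnH
      have h1 : (x : ℤ) ≤ (H : ℤ) ^ C := by
        have : (x : ℤ) ≤ n := by exact_mod_cast hxn.le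
        exact this.trans hnC
      have h2 : (n : ℤ) - x ≤ (H : ℤ) ^ C := by
        linarith [show (0 : ℤ) ≤ x by positivity]
      have h3 : (1 : ℤ) ≤ H := by exact_mod_cast (by omega : 1 ≤ H)
      calc (x : ℤ) * ((n : ℤ) - x) ≤ (H : ℤ) ^ C * (H : ℤ) ^ C :=
            mul_le_mul h1 h2 (by omega) (by positivity)
        _ = (H : ℤ) ^ (C + C) := (pow_add _ _ _).symm
        _ ≤ (H : ℤ) ^ (4 * C) := pow_le_pow_right₀ h3 (by omega))
    (by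
      intro W N hW1 hW2 hN1 hN2 hWp
      refine le_trans ?_ (hX H (by omega) n hHn hnH W N hW1 hW2 hN1 hN2 hWp)
      rw [Nat.cast_le]
      apply card_le_card
      intro j hj
      rw [mem_filter] at hj ⊢
      refine ⟨hj.1, lt_of_lt_of_le hj.2 ?_⟩
      apply sum_le_sum_of_subset_of_nonneg
      · intro p hp
        rw [mem_filter] at hp ⊢
        have hp1 := hp.1
        unfold PS at hp1
        rw [mem_filter] at hp1
        exact ⟨hp.1, (hCF _ p hp1.2.1 hp.2).1⟩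
      · intro p _ _
        positivity)
    (by
      intro h hh1 hh2 p hp hpe hcf
      obtain ⟨g1, g2⟩ := hCF h p hp hcf
      apply g2
      rw [hbd]
      exact ⟨hpe, h, hh1, hh2, g1⟩)
    (by
      intro p hp
      rw [mem_Ioc]
      exact ⟨(hS p hp).2.1, (hS p hp).2.2.1⟩)
    (by
      intro p hp q hq hqH hqd
      obtain ⟨hpp, hp1, hp2, hp3, hp4⟩ := hS p hp
      have g1 := ((s2 p q hq).1 hqd).2.2
      have hpn' : p ≤ n := by omega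
      unfold Fl at g1
      have e : (n : ℤ) - (p : ℤ) = ((n - p : ℕ) : ℤ) := by
        rw [Nat.cast_sub hpn']
      rw [e] at g1
      have g4 : q ∣ p * (n - p) := by exact_mod_cast g1
      rcases (hq.dvd_mul).1 g4 with g5 | g5
      · have h2 := (Nat.prime_dvd_prime_iff_eq hq hpp).1 g5
        rw [h2] at hqH
        linarith
      · have h2 := hp4 q hq g5
        linarith)
    hden
  refine ⟨a, d, hd1, hd2.trans (pow_le_pow_left₀ hlogH.le hlogHn B), fun i hi => ?_⟩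
  exact hAP i (lt_of_lt_of_le hi (le_max_left _ _))

theorem sg_nonneg (n : ℕ) : 0 ≤ sg n := by
  unfold sg
  apply prod_nonneg
  intro p hp
  rw [mem_erase, Nat.mem_primeFactors] at hp
  have h2 := hp.2.1.two_le
  have h3 : 3 ≤ p := by
    rcases h2.eq_or_lt with h | h
    · exact absurd h.symm hp.1
    · exact h
  have h4 : (3 : ℝ) ≤ p := by exact_mod_cast h3
  exact div_nonneg (by linarith) (by linarith)

/-- dense sets of primes `p` in the real windows `(u, v]`, `v - u ≥ n ^ θ` -/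
theorem dense_real (θ : ℝ) (hθ : 0 < θ) (k : ℕ) (δ κ : ℝ) (hδ : 0 < δ) (hκ : 0 < κ) :
    ∃ B n₀ : ℕ, ∀ n : ℕ, n₀ ≤ n → Even n → ∀ u v : ℝ, 0 ≤ u → v < n → (n : ℝ) ^ θ ≤ v - u →
    ∀ S : Finset ℕ, (∀ p ∈ S, p.Prime ∧ u < p ∧ (p : ℝ) ≤ v ∧ (n : ℝ) ^ δ ≤ p ∧
      ∀ q : ℕ, q.Prime → q ∣ (n - p) → (n : ℝ) ^ δ ≤ q) →
    κ * (sg n * ((v - u) / Real.log n ^ 2)) ≤ S.card →
    ∃ a d : ℕ, 1 ≤ d ∧ (d : ℝ) ≤ Real.log n ^ B ∧ ∀ i < k, a + i * d ∈ S := by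
  obtain ⟨C, hC1, hCθ⟩ : ∃ C : ℕ, 1 ≤ C ∧ 1 / (θ / 2) ≤ C :=
    ⟨⌈1 / (θ / 2)⌉₊ + 1, by omega, by
      push_cast
      linarith [Nat.le_ceil (1 / (θ / 2))]⟩
  obtain ⟨B, n₀, h⟩ := dense_int C hC1 k δ (κ / 2) hδ (by positivity)
  have hT := tendsto_natCast_atTop_atTop (R := ℝ)
  obtain ⟨n₁, hn₁⟩ := eventually_atTop.1
    (((tendsto_rpow_atTop (by positivity : 0 < θ / 2)).comp hT).eventually_ge_atTop (4 : ℝ))
  refine ⟨B, max (max n₀ n₁) 1, fun n hn hev u v hu hv huv S hS hSc => ?_⟩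
  have e1 := hn₁ n (((le_max_right _ _).trans (le_max_left _ _)).trans hn)
  simp only [Function.comp] at e1
  have hn1 : 1 ≤ n := (le_max_right _ _).trans hn
  have hnr : (1 : ℝ) ≤ n := by exact_mod_cast hn1
  have e2 : (n : ℝ) ^ θ = (n : ℝ) ^ (θ / 2) * (n : ℝ) ^ (θ / 2) := by
    rw [← Real.rpow_add (by linarith)]
    congr 1
    ring
  obtain ⟨w, hw⟩ : ∃ w : ℝ, w = (n : ℝ) ^ (θ / 2) := ⟨_, rfl⟩
  rw [← hw] at e1 e2
  rw [e2] at huv
  have hv0 : 0 ≤ v := by nlinarith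
  have hf1 : (⌊u⌋₊ : ℝ) ≤ u := Nat.floor_le hu
  have hf2 : v < ⌊v⌋₊ + 1 := Nat.lt_floor_add_one v
  have hf3 : (⌊v⌋₊ : ℝ) ≤ v := Nat.floor_le hv0
  have hf4 : u < ⌊u⌋₊ + 1 := Nat.lt_floor_add_one u
  have hle : ⌊u⌋₊ ≤ ⌊v⌋₊ := Nat.floor_le_floor (by nlinarith)
  have hH : ((⌊v⌋₊ - ⌊u⌋₊ : ℕ) : ℝ) = (⌊v⌋₊ : ℝ) - ⌊u⌋₊ := Nat.cast_sub hle
  apply h n (((le_max_left _ _).trans (le_max_left _ _)).trans hn) hev ⌊u⌋₊ (⌊v⌋₊ - ⌊u⌋₊)
  · have h1 : w ≤ ((⌊v⌋₊ - ⌊u⌋₊ : ℕ) : ℝ) := by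
      rw [hH]
      nlinarith
    have h2 : (n : ℝ) = w ^ (1 / (θ / 2) : ℝ) := by
      rw [hw, ← Real.rpow_mul (by linarith), mul_one_div, div_self (by positivity), Real.rpow_one]
    have h3 : (n : ℝ) ≤ ((⌊v⌋₊ - ⌊u⌋₊ : ℕ) : ℝ) ^ C := by
      calc (n : ℝ) = w ^ (1 / (θ / 2) : ℝ) := h2
        _ ≤ w ^ (C : ℝ) := Real.rpow_le_rpow_of_exponent_le (by linarith) hCθ
        _ = w ^ C := Real.rpow_natCast _ _
        _ ≤ ((⌊v⌋₊ - ⌊u⌋₊ : ℕ) : ℝ) ^ C := pow_le_pow_left₀ (by linarith) h1 C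
    exact_mod_cast h3
  · have h1 : (⌊v⌋₊ : ℝ) < n := by linarith
    have h2 : ⌊v⌋₊ < n := by exact_mod_cast h1
    omega
  · intro p hp
    obtain ⟨h1, h2, h3, h4, h5⟩ := hS p hp
    refine ⟨h1, (Nat.floor_lt hu).2 h2, ?_, h4, h5⟩
    have := (Nat.le_floor_iff hv0).2 h3
    omega
  · refine le_trans ?_ hSc
    have h1 : ((⌊v⌋₊ - ⌊u⌋₊ : ℕ) : ℝ) ≤ 2 * (v - u) := by
      rw [hH]
      nlinarith
    have h2 : ((⌊v⌋₊ - ⌊u⌋₊ : ℕ) : ℝ) / Real.log n ^ 2 ≤ 2 * (v - u) / Real.log n ^ 2 :=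
      div_le_div_of_nonneg_right h1 (by positivity)
    calc κ / 2 * (sg n * (((⌊v⌋₊ - ⌊u⌋₊ : ℕ) : ℝ) / Real.log n ^ 2)) ≤
        κ / 2 * (sg n * (2 * (v - u) / Real.log n ^ 2)) :=
          mul_le_mul_of_nonneg_left (mul_le_mul_of_nonneg_left h2 (sg_nonneg n)) (by positivity)
      _ = κ * (sg n * ((v - u) / Real.log n ^ 2)) := by ring

end Pool.Agent.Zk41.NP
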