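import Pool.Agent.K3h19.RV.Sqrt

/-!
# Narrow progressions in all windows (helper41): a prime plus an almost prime at all scales
-/

set_option autoImplicit false

open Finset Filter

namespace Pool.Agent.Zk41.NP

open Pool.Agent.Y882
open Pool.Agent.Y882.KW
open Pool.Agent.Y882.GW
open Pool.Agent.Y882.GX
open Pool.Agent.K3h19.RV (Lam richert blkR)

open Classical in
/-- the primes `p < m` with `x / 4 < p < x` such that `m - p` has at most `r` prime factors (counted with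
multiplicity), all of them at least `w` -/
noncomputable def Pset (r : ℕ) (w : ℝ) (m : ℕ) (x : ℝ) : Finset ℕ :=
  (range m).filter (fun p : ℕ => p.Prime ∧ x / 4 < p ∧ (p : ℝ) < x ∧
    (m - p).primeFactorsList.length ≤ r ∧ ∀ q : ℕ, q.Prime → q ∣ (m - p) → w ≤ q)

theorem gp_sub (r : ℕ) (w v y x : ℝ) (hwv : v ≤ w) (m : ℕ) (hx : x ≤ m) (hyx : y ≤ x) (hxy : x ≤ 2 * y) :
    gp r y w m ⊆ Pset r v m x := by
  classical
  intro p hp
  unfold gp at hp
  unfold Pset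
  rw [mem_filter] at hp ⊢
  obtain ⟨-, h8, h8', h9, h10, h11⟩ := hp
  have h14 : (p : ℝ) < m := by linarith
  exact ⟨mem_range.2 (by exact_mod_cast h14), h8, by linarith, by linarith, h10,
    fun q hq hqn => hwv.trans (h11 q hq hqn)⟩

theorem Lam_ge (r : ℕ) (hr : 1 ≤ r) : 1 ≤ Lam r := by
  have hL0 : 0 < Real.log 3 := by linarith [Pool.Agent.K3h19.RV.log3_pos]
  unfold Lam
  have h0 : (3 : ℝ) ≤ 3 ^ r := by
    calc (3 : ℝ) = 3 ^ 1 := (pow_one _).symm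
      _ ≤ 3 ^ r := pow_le_pow_right₀ (by norm_num) hr
  have h1 : 0 ≤ Real.log ((3 ^ r + 1) / 4) := by
    apply Real.log_nonneg
    linarith
  have := div_nonneg h1 hL0.le
  linarith

/-- every even number, every scale -/
theorem scaleAll (r : ℕ) (hr : 1 ≤ r) (θ : ℝ) (hθ2 : 1 / 2 ≤ θ) (hθ1 : θ ≤ 1) (hθ : 2 / Lam r < θ) :
    ∃ δ : ℝ, 0 < δ ∧ ∃ N0 : ℕ, ∀ N : ℕ, N0 ≤ N → Even N → ∀ x : ℝ, (N : ℝ) ^ θ ≤ x → x ≤ N / 2 →
      δ * sgs N * (x / Real.log N ^ 2) ≤ ((Pset r ((N : ℝ) ^ ((1 : ℝ) / 17)) N x).card : ℝ) := by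
  have hL1 := Lam_ge r hr
  have hL0 : 0 < Lam r := by linarith
  have hθ0 : 0 < θ := lt_trans (by positivity) hθ
  obtain ⟨τ, t1', t2⟩ : ∃ τ : ℝ, max (1 / Lam r) (4 / 17) < τ ∧ τ < θ / 2 := by
    apply _root_.exists_between
    apply max_lt
    · have e : 2 / Lam r = 2 * (1 / Lam r) := by ring
      rw [e] at hθ
      linarith
    · linarith
  have t1 : 1 / Lam r < τ := (le_max_left _ _).trans_lt t1'
  have t3 : 4 / 17 < τ := (le_max_right _ _).trans_lt t1'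
  have hτ0 : 0 < τ := lt_trans (by positivity) t1
  have hmul : 1 < τ * Lam r := by
    rwa [div_lt_iff₀ hL0] at t1
  obtain ⟨υ, lam, S, g1, g2, g3, g4, g5, g6⟩ := richert r hr τ hτ0 hmul
  obtain ⟨δ, hδ, Y0, H⟩ := ptw r θ τ (τ / 4) υ lam S hθ0 hθ1 (by linarith) (by linarith)
    (by linarith) t2 g1 g2 g3 g6 g4 g5
  obtain ⟨ω, hω⟩ : ∃ ω : ℝ, ω = (1 : ℝ) / 17 := ⟨_, rfl⟩
  have hω0 : 0 < ω := by rw [hω]; norm_num
  have hω1 : ω ≤ 1 := by rw [hω]; norm_num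
  have hωτ : ω < τ / 4 := by
    rw [hω]
    linarith
  have ev1 : ∀ᶠ Y : ℕ in atTop, (2 : ℝ) ≤ (Y : ℝ) ^ (τ / 4 - ω) :=
    ((tendsto_rpow_atTop (by linarith)).comp tendsto_natCast_atTop_atTop).eventually_ge_atTop _
  obtain ⟨Y1, hY1⟩ := eventually_atTop.1 ev1
  refine ⟨δ, hδ, 2 * (max (max Y0 Y1) 16), fun N hN hev x hx1 hx2 => ?_⟩
  obtain ⟨Y, hYN⟩ := hev
  have hNY : N = 2 * Y := by omega
  have hYm : max (max Y0 Y1) 16 ≤ Y := by omega
  have hY0 : Y0 ≤ Y := ((le_max_left _ _).trans (le_max_left _ _)).trans hYm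
  have e1 := hY1 Y (((le_max_right _ _).trans (le_max_left _ _)).trans hYm)
  have hY3 : 16 ≤ Y := (le_max_right _ _).trans hYm
  have hYr : (16 : ℝ) ≤ Y := by exact_mod_cast hY3
  have hYp : (0 : ℝ) < Y := by linarith
  have hNr : (N : ℝ) = 2 * Y := by
    rw [hNY]
    push_cast
    ring
  have hYN' : (Y : ℝ) ≤ N := by linarith
  have hx0 : 0 < x := lt_of_lt_of_le (Real.rpow_pos_of_pos (by linarith) _) hx1
  have g1 := H Y hY0 x ((Real.rpow_le_rpow hYp.le hYN' hθ0.le).trans hx1) (by linarith) N (by omega)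
    (by omega) ⟨Y, hYN⟩
  have hv : (N : ℝ) ^ ω ≤ (Y : ℝ) ^ (τ / 4) := by
    calc (N : ℝ) ^ ω = 2 ^ ω * (Y : ℝ) ^ ω := by
          rw [hNr]
          exact Real.mul_rpow (by norm_num) hYp.le
      _ ≤ (Y : ℝ) ^ (τ / 4 - ω) * (Y : ℝ) ^ ω := by
          apply mul_le_mul_of_nonneg_right _ (by positivity)
          refine le_trans ?_ e1
          calc (2 : ℝ) ^ ω ≤ 2 ^ (1 : ℝ) := Real.rpow_le_rpow_of_exponent_le (by norm_num) hω1
            _ = 2 := Real.rpow_one _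
      _ = (Y : ℝ) ^ (τ / 4) := by
          rw [← Real.rpow_add hYp]
          congr 1
          ring
  have h6 : ((gp r x ((Y : ℝ) ^ (τ / 4)) N).card : ℝ) ≤ ((Pset r ((N : ℝ) ^ ω) N x).card : ℝ) := by
    exact_mod_cast card_le_card (gp_sub r _ _ x x hv N (by linarith) le_rfl (by linarith))
  rw [← hω]
  refine le_trans ?_ (g1.trans h6)
  have hlY : 0 < Real.log Y := Real.log_pos (by linarith)
  have h14 : Real.log Y ≤ Real.log N := Real.log_le_log hYp hYN'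
  have hs1 : 1 ≤ sgs N := one_le_sgs N
  have h15 : x / Real.log N ^ 2 ≤ x / Real.log Y ^ 2 := by
    apply div_le_div_of_nonneg_left hx0.le (by positivity)
    exact pow_le_pow_left₀ hlY.le h14 2
  calc δ * sgs N * (x / Real.log N ^ 2) ≤ δ * sgs N * (x / Real.log Y ^ 2) :=
        mul_le_mul_of_nonneg_left h15 (by positivity)
    _ = δ * x / Real.log Y ^ 2 * sgs N := by ring

open Classical in
/-- all scales, very few exceptions -/
theorem scaleFew (r : ℕ) (hr : 2 ≤ r) (θ : ℝ) (hθ2 : 1 / 2 ≤ θ) (hθ1 : θ ≤ 1) (η : ℝ) (hη0 : 0 < η)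
    (hη : 2 / Lam r - θ < η) :
    ∃ δ C : ℝ, 0 < δ ∧ 0 < C ∧ ∀ X : ℕ, 1 ≤ X →
      (((Icc 1 X).filter (fun N : ℕ => Even N ∧ ∃ x : ℝ, 4 * (N : ℝ) ^ θ ≤ x ∧ x ≤ N / 2 ∧
        ((Pset r ((N : ℝ) ^ ((1 : ℝ) / 17)) N x).card : ℝ) <
          δ * sgs N * (x / Real.log N ^ 2))).card : ℝ) ≤ C * (X : ℝ) ^ η := by
  have hθ0 : 0 < θ := by linarith
  obtain ⟨η', k1, k2⟩ : ∃ η' : ℝ, max 0 (2 / Lam r - θ) < η' ∧ η' < η :=
    _root_.exists_between (max_lt hη0 hη)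
  have k3 : 0 < η' := (le_max_left _ _).trans_lt k1
  have k4 : 2 / Lam r - θ < η' := (le_max_right _ _).trans_lt k1
  obtain ⟨ζ, hζ', δ, hδ, Y0, H⟩ := blkR r hr θ η' hθ0 hθ1 k3 k4
    ((lt_or_ge (1 / Lam r) θ).imp_right (fun h => hθ2.trans h))
  have hζ : 1 / 17 < ζ := by linarith
  have ev1 : ∀ᶠ Y : ℕ in atTop, (2 : ℝ) ^ ((1 : ℝ) / 17) ≤ (Y : ℝ) ^ (ζ - 1 / 17) :=
    ((tendsto_rpow_atTop (by linarith)).comp tendsto_natCast_atTop_atTop).eventually_ge_atTop _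
  have ev2 : ∀ᶠ Y : ℕ in atTop, ((Nat.log 2 Y + 1 : ℕ) : ℝ) ≤ (Y : ℝ) ^ (η - η') := by
    have h1 : ∀ᶠ x : ℝ in atTop, ‖Real.log x‖ ≤ (1 / 4 : ℝ) * ‖x ^ (η - η')‖ :=
      (isLittleO_log_rpow_atTop (by linarith : 0 < η - η')).def (by norm_num)
    have h2 := (tendsto_natCast_atTop_atTop (R := ℝ)).eventually h1
    have h3 : ∀ᶠ Y : ℕ in atTop, (2 : ℝ) ≤ (Y : ℝ) ^ (η - η') :=
      ((tendsto_rpow_atTop (by linarith)).comp tendsto_natCast_atTop_atTop).eventually_ge_atTop _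
    filter_upwards [h2, h3, eventually_ge_atTop 1] with Y h4 h5 h6
    have hY1 : (1 : ℝ) ≤ Y := by exact_mod_cast h6
    rw [Real.norm_of_nonneg (Real.log_nonneg hY1), Real.norm_of_nonneg (by positivity)] at h4
    have h7 : (2 : ℝ) ^ (Nat.log 2 Y) ≤ Y := by exact_mod_cast Nat.pow_log_le_self 2 (by omega)
    have h8 := Real.log_le_log (by positivity) h7
    rw [Real.log_pow] at h8
    have h9 : (0.6931471803 : ℝ) < Real.log 2 := Real.log_two_gt_d9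
    have h10 : (0 : ℝ) ≤ (Nat.log 2 Y : ℝ) := Nat.cast_nonneg _
    push_cast
    nlinarith
  obtain ⟨Y1, hY1⟩ := eventually_atTop.1 (ev1.and ev2)
  obtain ⟨C, hC, hcum⟩ := Pool.Agent.Y882.cum (fun N : ℕ => Even N ∧ ∃ x : ℝ, 4 * (N : ℝ) ^ θ ≤ x ∧ x ≤ N / 2 ∧
    ((Pset r ((N : ℝ) ^ ((1 : ℝ) / 17)) N x).card : ℝ) < δ / 2 * sgs N * (x / Real.log N ^ 2))
    η hη0 (max (max Y0 Y1) 16) (by
    intro Y hY
    have hY0 : Y0 ≤ Y := ((le_max_left _ _).trans (le_max_left _ _)).trans hY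
    obtain ⟨e1, e2⟩ := hY1 Y (((le_max_right _ _).trans (le_max_left _ _)).trans hY)
    have hY3 : 16 ≤ Y := (le_max_right _ _).trans hY
    have hYr : (16 : ℝ) ≤ Y := by exact_mod_cast hY3
    have hYp : (0 : ℝ) < Y := by linarith
    have hlY : 0 < Real.log Y := Real.log_pos (by linarith)
    set J : Finset ℕ := (range (Nat.log 2 Y + 1)).filter (fun j => (Y : ℝ) ^ θ ≤ (2 : ℝ) ^ j) with hJ
    set E : ℕ → Finset ℕ := fun j => (Ioc Y (2 * Y)).filter (fun n => Even n ∧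
      ((gp r ((2 : ℝ) ^ j) ((Y : ℝ) ^ ζ) n).card : ℝ) < δ * (2 : ℝ) ^ j / Real.log Y ^ 2 * sgs n) with hE
    have hsub : (Ioc Y (2 * Y)).filter (fun N : ℕ => Even N ∧ ∃ x : ℝ, 4 * (N : ℝ) ^ θ ≤ x ∧ x ≤ N / 2 ∧
        ((Pset r ((N : ℝ) ^ ((1 : ℝ) / 17)) N x).card : ℝ) < δ / 2 * sgs N * (x / Real.log N ^ 2)) ⊆
        J.biUnion E := by
      intro n hn
      rw [mem_filter, mem_Ioc] at hn
      obtain ⟨⟨h2, h3⟩, h4, x, h5, h6, h7⟩ := hn
      have h12 : (n : ℝ) ≤ 2 * Y := by exact_mod_cast h3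
      have h13 : (Y : ℝ) < n := by exact_mod_cast h2
      have hsn : (Y : ℝ) ^ θ ≤ (n : ℝ) ^ θ := Real.rpow_le_rpow hYp.le h13.le hθ0.le
      have hsY : 1 ≤ (Y : ℝ) ^ θ := Real.one_le_rpow (by linarith) hθ0.le
      have hx1 : 1 ≤ x := by linarith
      -- the power of two
      obtain ⟨j, hj⟩ : ∃ j : ℕ, j = Nat.log 2 ⌊x⌋₊ := ⟨_, rfl⟩
      have hfx : 1 ≤ ⌊x⌋₊ := Nat.le_floor (by exact_mod_cast hx1)
      have hj1 : (2 : ℝ) ^ j ≤ x := by
        have h8 : 2 ^ j ≤ ⌊x⌋₊ := by rw [hj]; exact Nat.pow_log_le_self 2 (by omega)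
        have h9 : ((2 ^ j : ℕ) : ℝ) ≤ x := (Nat.le_floor_iff (by linarith)).1 h8
        exact_mod_cast h9
      have hj2 : x < 2 * (2 : ℝ) ^ j := by
        have h8 : ⌊x⌋₊ < 2 ^ (j + 1) := by rw [hj]; exact Nat.lt_pow_succ_log_self (by norm_num) _
        have h9 : x < ((2 ^ (j + 1) : ℕ) : ℝ) := (Nat.floor_lt (by linarith)).1 h8
        push_cast at h9
        rw [pow_succ] at h9
        linarith
      have hjY : (2 : ℝ) ^ j ≤ Y := by linarith
      have hjJ : j ∈ J := by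
        rw [hJ, mem_filter, mem_range]
        constructor
        · have h8 : 2 ^ j ≤ Y := by exact_mod_cast hjY
          have h9 := Nat.log_mono_right (b := 2) h8
          rw [Nat.log_pow (by norm_num)] at h9
          omega
        · linarith
      rw [mem_biUnion]
      refine ⟨j, hjJ, ?_⟩
      rw [hE, mem_filter, mem_Ioc]
      refine ⟨⟨h2, h3⟩, h4, ?_⟩
      have hv : (n : ℝ) ^ ((1 : ℝ) / 17) ≤ (Y : ℝ) ^ ζ := by
        calc (n : ℝ) ^ ((1 : ℝ) / 17) ≤ (2 * (Y : ℝ)) ^ ((1 : ℝ) / 17) :=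
              Real.rpow_le_rpow (by positivity) h12 (by norm_num)
          _ = 2 ^ ((1 : ℝ) / 17) * (Y : ℝ) ^ ((1 : ℝ) / 17) :=
              Real.mul_rpow (by norm_num) (by positivity)
          _ ≤ (Y : ℝ) ^ (ζ - 1 / 17) * (Y : ℝ) ^ ((1 : ℝ) / 17) :=
              mul_le_mul_of_nonneg_right e1 (by positivity)
          _ = (Y : ℝ) ^ ζ := by
              rw [← Real.rpow_add hYp]
              congr 1
              ring
      have h8 : ((gp r ((2 : ℝ) ^ j) ((Y : ℝ) ^ ζ) n).card : ℝ) ≤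
          ((Pset r ((n : ℝ) ^ ((1 : ℝ) / 17)) n x).card : ℝ) := by
        exact_mod_cast card_le_card (gp_sub r _ _ _ x hv n (by linarith) hj1 hj2.le)
      refine h8.trans_lt (h7.trans_le ?_)
      have hs1 : 1 ≤ sgs n := one_le_sgs n
      have h14 : Real.log Y ≤ Real.log n := Real.log_le_log (by linarith) h13.le
      have h15 : x / Real.log n ^ 2 ≤ 2 * (2 : ℝ) ^ j / Real.log Y ^ 2 := by
        apply div_le_div₀ (by positivity) hj2.le (by positivity)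
        exact pow_le_pow_left₀ hlY.le h14 2
      calc δ / 2 * sgs n * (x / Real.log n ^ 2) ≤ δ / 2 * sgs n * (2 * (2 : ℝ) ^ j / Real.log Y ^ 2) :=
            mul_le_mul_of_nonneg_left h15 (by positivity)
        _ = δ * (2 : ℝ) ^ j / Real.log Y ^ 2 * sgs n := by ring
    have hcard := (card_le_card hsub).trans card_biUnion_le
    have h1 : ∀ j ∈ J, ((E j).card : ℝ) ≤ (Y : ℝ) ^ η' := by
      intro j hj
      rw [hJ, mem_filter, mem_range] at hj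
      have h8 : 2 ^ j ≤ Y := by
        calc 2 ^ j ≤ 2 ^ (Nat.log 2 Y) := Nat.pow_le_pow_right (by norm_num) (by omega)
          _ ≤ Y := Nat.pow_log_le_self 2 (by omega)
      exact H Y hY0 ((2 : ℝ) ^ j) hj.2 (by exact_mod_cast h8)
    have h2 : (J.card : ℝ) ≤ (Y : ℝ) ^ (η - η') := by
      refine le_trans ?_ e2
      have : J.card ≤ Nat.log 2 Y + 1 := by
        rw [hJ]
        exact (card_filter_le _ _).trans (by rw [card_range])
      exact_mod_cast this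
    calc _ ≤ ((∑ j ∈ J, (E j).card : ℕ) : ℝ) := by exact_mod_cast hcard
      _ = ∑ j ∈ J, ((E j).card : ℝ) := by push_cast; rfl
      _ ≤ ∑ _j ∈ J, (Y : ℝ) ^ η' := sum_le_sum h1
      _ = J.card * (Y : ℝ) ^ η' := by rw [sum_const, nsmul_eq_mul]
      _ ≤ (Y : ℝ) ^ (η - η') * (Y : ℝ) ^ η' := mul_le_mul_of_nonneg_right h2 (by positivity)
      _ = (Y : ℝ) ^ η := by
          rw [← Real.rpow_add hYp]
          congr 1
          ring)
  exact ⟨δ / 2, C, by positivity, hC, fun X hX => hcum X hX⟩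

open Classical in
/-- all scales `x ≥ 4 N ^ θ`, at most `C X ^ η` exceptions -/
theorem scale (r : ℕ) (hr : 2 ≤ r) (θ η : ℝ) (hθ2 : 1 / 2 ≤ θ) (hθ1 : θ ≤ 1) (hη0 : 0 ≤ η)
    (hη : 2 / Lam r < θ + η) :
    ∃ δ C : ℝ, 0 < δ ∧ 0 < C ∧ ∀ X : ℕ, 1 ≤ X →
      (((Icc 1 X).filter (fun N : ℕ => Even N ∧ ∃ x : ℝ, 4 * (N : ℝ) ^ θ ≤ x ∧ x ≤ N / 2 ∧
        ((Pset r ((N : ℝ) ^ ((1 : ℝ) / 17)) N x).card : ℝ) <
          δ * sgs N * (x / Real.log N ^ 2))).card : ℝ) ≤ C * (X : ℝ) ^ η := by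
  rcases hη0.lt_or_eq with h | h
  · exact scaleFew r hr θ hθ2 hθ1 η h (by linarith)
  · obtain ⟨δ, hδ, N0, H⟩ := scaleAll r (by omega) θ hθ2 hθ1 (by linarith)
    refine ⟨δ, N0 + 1, hδ, by positivity, fun X _ => ?_⟩
    rw [← h, Real.rpow_zero, mul_one]
    have hsub : (Icc 1 X).filter (fun N : ℕ => Even N ∧ ∃ x : ℝ, 4 * (N : ℝ) ^ θ ≤ x ∧ x ≤ N / 2 ∧
        ((Pset r ((N : ℝ) ^ ((1 : ℝ) / 17)) N x).card : ℝ) <
          δ * sgs N * (x / Real.log N ^ 2)) ⊆ range N0 := by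
      intro N hN
      rw [mem_filter] at hN
      obtain ⟨-, hev, x, hx1, hx2, hx3⟩ := hN
      rw [mem_range]
      by_contra hcon
      rw [not_lt] at hcon
      have h0 : 0 ≤ (N : ℝ) ^ θ := by positivity
      exact absurd (H N hcon hev x (by linarith) hx2) (not_le.2 hx3)
    have h4 := card_le_card hsub
    rw [card_range] at h4
    have h5 := (Nat.cast_le (α := ℝ)).2 h4
    linarith

end Pool.Agent.Zk41.NP
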