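import Mathlib
import Pool.Agent.Zk41.Col5
import Pool.Agent.H362R2.QT.LOW
import Pool.Agent.Y877.RgH

/-! The coloured lower bound for `T` classes of shifts (after LOW.lean of helper362 and RgH.lean of helper877). -/

set_option autoImplicit false

open Finset Filter Topology
open scoped ContDiff

namespace Pool.Agent.Zk41.Q

open Pool.Agent.H378R2 Pool.Agent.H387R2 Pool.Agent.H387R2.MB Pool.Agent.H362R2.QT Pool.Agent.Y877.RO

open Classical in
/-- the coloured lower bound for sets of shifts -/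
def LowCT (m T K' : ℕ) (δ c0 : ℝ) (N M y : ℕ) : Prop :=
  ∀ (b : ℕ) (R : Fin T × Fin K' → ℕ), Function.Injective R → (∀ x, R x ≤ M) →
    (∀ x, Nat.Coprime (Uni.WW y) (b + R x)) →
    c0 * UU (T * K') ((N : ℝ) / 4) y ≤ ∑ n ∈ Icc 1 ⌊3 * ((N : ℝ) / 4)⌋₊, nu ((N : ℝ) / 4) (Uni.WW y) b n *
      (if (m ≤ ((univ : Finset (Fin T)).filter (fun g => ∃ j, (n + R (g, j)).Prime)).card) ∧
        (∀ x, Rg δ ((N : ℝ) / 4) (n + R x)) then 1 else 0)

/-- the lower bound at all scales up to a power of the logarithm -/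
def St_LOWT : Prop := ∀ m T : ℕ, 1 ≤ m → 4 * (m - 1) < T →
  ∃ K' : ℕ, 1 ≤ K' ∧ ∃ δ : ℝ, 0 < δ ∧ δ ≤ 1 / 10 ∧ ∃ c0 : ℝ, 0 < c0 ∧ ∀ C : ℝ,
    ∀ᶠ N : ℕ in atTop, LowCT m T K' δ c0 N ⌊Real.log N ^ C⌋₊ ⌊Real.log (Real.log N)⌋₊

theorem LOWT (h : St_COLT) : St_LOWT := by
  classical
  intro m T hm hmT
  obtain ⟨K', K0, e, δ, hK', hδ, hδ', θ, hθ, c0, hc0, z, h⟩ := h m T hm hmT
  refine ⟨K', hK', δ, hδ, hδ', c0, hc0, fun C => ?_⟩
  have hcard : T * K' = K0 + 1 := by
    have := Fintype.card_congr e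
    simpa [Fintype.card_prod, Fintype.card_fin] using this
  have tN : Tendsto (fun N : ℕ => (N : ℝ)) atTop atTop := tendsto_natCast_atTop_atTop
  have tX : Tendsto (fun N : ℕ => (N : ℝ) / 4) atTop atTop := tN.atTop_div_const (by norm_num)
  filter_upwards [tX.eventually h, ec_eventually (K0 + 1) z C hθ, M_le_sqrt C,
    (LL_tendsto.comp tX).eventually_ge_atTop 1] with N h1 h2 h3 h4
  set X := (N:ℝ) / 4 with hX
  set y := ⌊Real.log (Real.log (N:ℝ))⌋₊ with hy
  have hL0 : 0 < LL X := by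
    have : 1 ≤ LL X := h4
    linarith
  intro b R hR hRM hRc
  have hSc : (univ.image R).card = K0 + 1 := by
    rw [card_image_of_injective _ hR, card_univ, Fintype.card_congr e, Fintype.card_fin]
  have hSM : ∀ a ∈ univ.image R, a ≤ ⌊Real.log (N:ℝ) ^ C⌋₊ := by
    intro a ha
    obtain ⟨x, -, rfl⟩ := mem_image.1 ha
    exact hRM x
  obtain ⟨hCS, hs, hB1, hB2⟩ := h2 (univ.image R) hSc.le hSM
  set t : Fin (K0 + 1) → ℕ := fun j => R (e.symm j) with ht
  have htR : ∀ j, t j ∈ univ.image R := fun j => mem_image_of_mem _ (mem_univ _)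
  have hBE : 0 < BE (ER y (univ.image R)) := BE_pos hCS.gs.pr
  have eφ : ((Uni.WW y).totient : ℝ) = Uni.WW y * rho y := by
    unfold rho
    have : (Uni.WW y : ℝ) ≠ 0 := by exact_mod_cast (Uni.WW_pos y).ne'
    field_simp
  have hW0 : (0:ℝ) < Uni.WW y := by exact_mod_cast Uni.WW_pos y
  have hcnd : Cnd θ X z (Uni.WW y) (ER y (univ.image R)) b t :=
    { cs := hCS
      sq := WW_sqf y
      dt := DT_ER t htR (hR.comp e.symm.injective)
      cp := fun j => (hRc _).symm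
      tl := fun j => by
        refine le_trans ?_ h3
        exact_mod_cast hRM _
      sm := hs
      b1 := by
        rw [eφ]
        exact mul_le_mul_of_nonneg_left hB1 hW0.le
      b2 := by
        rw [eφ]
        have := mul_le_mul_of_nonneg_left (low_BE (univ.image R) hs) hW0.le
        linarith }
  have k1 := h1 (Uni.WW y) (ER y (univ.image R)) b t hcnd
  have k2 := mul_le_mul_of_nonneg_left (UU_le_QQ (J := K0 + 1) hL0 hBE hB1) hc0.le
  rw [hcard]
  refine (k2.trans k1).trans (le_of_eq ?_)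
  apply sum_congr rfl
  intro n _
  congr 1
  have e3 : (∀ j, Rg δ X (n + t j)) ↔ ∀ x, Rg δ X (n + R x) := by
    constructor
    · intro h x
      have := h (e x)
      simpa [ht] using this
    · intro h j
      exact h _
  simp only [e3]
  simp only [ht, Equiv.symm_apply_apply]
  rfl



open Classical in
/-- the coloured lower bound, with no primes in `n + [0, M0]` besides the translates -/
def LowDT (m T K' : ℕ) (δ c0 : ℝ) (N M0 y : ℕ) : Prop :=
  ∀ (b : ℕ) (R : Fin T × Fin K' → ℕ), Function.Injective R → (∀ x, R x ≤ M0) →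
    (∀ x, Nat.Coprime (Uni.WW y) (b + R x)) →
    c0 * UU (T * K') ((N : ℝ) / 4) y ≤ ∑ n ∈ Icc 1 ⌊3 * ((N : ℝ) / 4)⌋₊, nu ((N : ℝ) / 4) (Uni.WW y) b n *
      (if ((m ≤ ((univ : Finset (Fin T)).filter (fun g => ∃ j, (n + R (g, j)).Prime)).card) ∧
        (∀ x, Rg δ ((N : ℝ) / 4) (n + R x))) ∧ ∀ j ≤ M0, (n + j).Prime → ∃ x, R x = j then 1 else 0)

open Classical in
theorem low_cleanT (m T K' : ℕ) (δ c0 : ℝ) (hδ : 0 < δ) (hδ1 : δ ≤ 1) (hc0 : 0 < c0)
    (hlow : ∀ C : ℝ, ∀ᶠ N : ℕ in atTop, LowCT m T K' δ c0 N ⌊Real.log N ^ C⌋₊ ⌊Real.log (Real.log N)⌋₊) :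
    ∃ l0 : ℝ, 0 < l0 ∧ ∀ᶠ N : ℕ in atTop,
      LowDT m T K' δ (c0 / 2) N ⌊l0 * Real.log N⌋₊ ⌊Real.log (Real.log N)⌋₊ := by
  obtain ⟨C1, hC1, hup⟩ := upp_eventually (T * K' + 1) hδ
  obtain ⟨l0, hl0⟩ : ∃ l0, l0 = c0 / (12800 * C1) := ⟨_, rfl⟩
  have hl00 : 0 < l0 := by rw [hl0]; positivity
  refine ⟨l0, hl00, ?_⟩
  have tN : Tendsto (fun N : ℕ => (N : ℝ)) atTop atTop := tendsto_natCast_atTop_atTop
  have tL : Tendsto (fun N : ℕ => Real.log (N : ℝ)) atTop atTop := Real.tendsto_log_atTop.comp tN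
  have tX : Tendsto (fun N : ℕ => (N : ℝ) / 4) atTop atTop := tN.atTop_div_const (by norm_num)
  filter_upwards [hlow 2, hup 2, (LL_tendsto.comp tX).eventually_ge_atTop 1, tX.eventually_ge_atTop 4,
    num_ev l0 0 hl00, tL.eventually_ge_atTop l0, tL.eventually_ge_atTop (1 / l0), tX.eventually MPhi_big] with
    N h1 h2 h3 h4 h5 h6 h7 h8
  obtain ⟨hy2, hy4, -, -, hL1⟩ := h5
  intro b R hR hRM hRc
  obtain ⟨y, hy⟩ : ∃ y, y = ⌊Real.log (Real.log (N : ℝ))⌋₊ := ⟨_, rfl⟩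
  obtain ⟨M0, hM0⟩ : ∃ M0, M0 = ⌊l0 * Real.log (N : ℝ)⌋₊ := ⟨_, rfl⟩
  rw [← hy] at h1 h2 hy2 hy4 hRc ⊢
  rw [← hM0] at hRM ⊢
  obtain ⟨M, hM⟩ : ∃ M, M = ⌊Real.log (N : ℝ) ^ (2 : ℝ)⌋₊ := ⟨_, rfl⟩
  rw [← hM] at h1 h2
  have hL0 : 0 < Real.log (N : ℝ) := by linarith
  have hM0M : M0 ≤ M := by
    rw [hM0, hM]
    apply Nat.floor_le_floor
    rw [Real.rpow_two, sq]
    exact mul_le_mul_of_nonneg_right h6 hL0.le
  obtain ⟨X, hX⟩ : ∃ X, X = (N : ℝ) / 4 := ⟨_, rfl⟩
  have hLLX : LL X = Real.log X / 200 := rfl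
  have hLL1 : 1 ≤ LL X := by rw [hX]; exact h3
  have hX4 : 4 ≤ X := by rw [hX]; exact h4
  have hρ := rho_pos y
  have hyL : (y : ℝ) ≤ Real.log (Real.log (N : ℝ)) := by
    rw [hy]
    exact Nat.floor_le (Real.log_nonneg hL1)
  have hyX : (y : ℝ) ≤ (N : ℝ) / 4 := by
    rw [← hX]
    have e1 : Real.log (Real.log (N : ℝ)) ≤ Real.log (N : ℝ) - 1 := Real.log_le_sub_one_of_pos hL0
    have e2 : Real.log (N : ℝ) = Real.log 4 + Real.log X := by
      rw [← Real.log_mul (by norm_num) (by positivity), hX]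
      congr 1
      ring
    have e3 : Real.log X ≤ X - 1 := Real.log_le_sub_one_of_pos (by linarith)
    have e4 : Real.log 4 ≤ 2 := by
      have : Real.log 4 = 2 * Real.log 2 := by
        rw [show (4 : ℝ) = 2 ^ 2 by norm_num, Real.log_pow]; norm_num
      have := Real.log_two_lt_d9
      linarith
    linarith
  have h4' : 4 ^ (y / 2) ≤ M0 + 1 := by
    have e1 : l0 * Real.log N < (M0 : ℝ) + 1 := by rw [hM0]; exact Nat.lt_floor_add_one _
    have e2 : ((4 ^ (y / 2) : ℕ) : ℝ) ≤ ((M0 + 1 : ℕ) : ℝ) := by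
      push_cast
      linarith
    exact_mod_cast e2
  have hTc : (univ.image R).card = T * K' := by
    rw [card_image_of_injective _ hR, card_univ, Fintype.card_prod, Fintype.card_fin, Fintype.card_fin]
  have hlo := h1 b R hR (fun x => (hRM x).trans hM0M) hRc
  have hin := interlop (T * K') M0 M N y b δ C1 hδ1 hy2 (by linarith) hyX hM0M h4' h2 (univ.image R) hTc
    (fun t ht => by
      obtain ⟨x, _, rfl⟩ := mem_image.1 ht
      exact (hRM x).trans hM0M) hC1.le (by rw [← hX]; linarith)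
  rw [← hX] at hlo hin ⊢
  -- the interlopers are few
  have hU : 0 ≤ UU (T * K') X y := UU_nonneg _ (by linarith) y
  have hsmall : 8 * ((M0 + 1 : ℕ) : ℝ) * rho y * (C1 * UU (T * K' + 1) X y) ≤ c0 / 2 * UU (T * K') X y := by
    rw [UU_add, pow_one]
    have e1 : ((M0 + 1 : ℕ) : ℝ) ≤ 2 * l0 * Real.log N := by
      push_cast
      have e2 : (M0 : ℝ) ≤ l0 * Real.log N := by rw [hM0]; exact Nat.floor_le (by positivity)
      have e3 : 1 ≤ l0 * Real.log N := by
        rw [div_le_iff₀ hl00] at h7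
        linarith
      linarith
    have e4 : Real.log N ≤ 400 * LL X := by
      rw [hLLX]
      have e2 : Real.log (N : ℝ) = Real.log 4 + Real.log X := by
        rw [← Real.log_mul (by norm_num) (by positivity), hX]
        congr 1
        ring
      have e3 : Real.log 4 ≤ Real.log X := Real.log_le_log (by norm_num) hX4
      linarith
    have hLLp : 0 < LL X := by linarith
    calc 8 * ((M0 + 1 : ℕ) : ℝ) * rho y * (C1 * (UU (T * K') X y / (LL X * rho y))) =
        (8 * C1 * UU (T * K') X y / LL X) * ((M0 + 1 : ℕ) : ℝ) := by field_simp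
      _ ≤ (8 * C1 * UU (T * K') X y / LL X) * (2 * l0 * (400 * LL X)) := by
          apply mul_le_mul_of_nonneg_left _ (by positivity)
          refine e1.trans ?_
          apply mul_le_mul_of_nonneg_left e4 (by positivity)
      _ = c0 / 2 * UU (T * K') X y := by
          rw [hl0]
          field_simp
          ring
  have hsplit : ∀ n ∈ Icc 1 ⌊3 * X⌋₊, nu X (Uni.WW y) b n *
      (if (m ≤ ((univ : Finset (Fin T)).filter (fun g => ∃ j, (n + R (g, j)).Prime)).card) ∧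
        (∀ x, Rg δ X (n + R x)) then 1 else 0) ≤
      nu X (Uni.WW y) b n *
      (if ((m ≤ ((univ : Finset (Fin T)).filter (fun g => ∃ j, (n + R (g, j)).Prime)).card) ∧
        (∀ x, Rg δ X (n + R x))) ∧ ∀ j ≤ M0, (n + j).Prime → ∃ x, R x = j then 1 else 0) +
      nu X (Uni.WW y) b n *
      (if (∀ t ∈ univ.image R, Rg δ X (n + t)) ∧ ∃ j ≤ M0, j ∉ univ.image R ∧ (n + j).Prime then 1 else 0) := by
    intro n _
    rw [← mul_add]
    apply mul_le_mul_of_nonneg_left _ (nu_nonneg _ _ _ _)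
    by_cases hc : (m ≤ ((univ : Finset (Fin T)).filter (fun g => ∃ j, (n + R (g, j)).Prime)).card) ∧
        (∀ x, Rg δ X (n + R x))
    · rw [if_pos hc]
      by_cases hd : ∀ j ≤ M0, (n + j).Prime → ∃ x, R x = j
      · rw [if_pos ⟨hc, hd⟩]
        have : (0 : ℝ) ≤ (if (∀ t ∈ univ.image R, Rg δ X (n + t)) ∧ ∃ j ≤ M0, j ∉ univ.image R ∧ (n + j).Prime then 1 else 0) := by
          split_ifs <;> norm_num
        linarith
      · rw [if_neg (fun h => hd h.2), if_pos, zero_add]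
        push Not at hd
        obtain ⟨j, hj1, hj2, hj3⟩ := hd
        refine ⟨fun t ht => ?_, j, hj1, fun h => ?_, hj2⟩
        · obtain ⟨x, _, rfl⟩ := mem_image.1 ht
          exact hc.2 x
        · obtain ⟨x, _, hx⟩ := mem_image.1 h
          exact hj3 x hx
    · rw [if_neg hc]
      apply add_nonneg <;> split_ifs <;> norm_num
  have hfin := hlo.trans (sum_le_sum hsplit)
  rw [sum_add_distrib] at hfin
  linarith

end Pool.Agent.Zk41.Q
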