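import Mathlib
import Pool.Agent.H362R2.CM.Dens

/-! Turan's theorem with supersaturation: if almost all `5 x L` boxes have a good pair in two different rows
then a quarter of the pairs are good. -/

set_option autoImplicit false

open Finset

namespace Pool.Agent.Zk41.Q

open Pool.Agent.H362R2.CM

open Classical in
/-- **Turan**: a set with few good pairs contains five elements without a good pair -/
theorem five_of_few {α : Type} (R : Finset α) (good : Finset α → Prop) (q : ℝ)
    (hq : q * (R.card.choose 2 : ℝ) ≤ (R.card : ℝ) ^ 2 / 8 - R.card / 2)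
    (h : ((((powersetCard 2 R).filter good).card : ℕ) : ℝ) < q * (R.card.choose 2 : ℝ)) :
    ∃ F ⊆ R, F.card = 5 ∧ ∀ U ⊆ F, U.card = 2 → ¬ good U := by
  by_contra hcon
  push Not at hcon
  obtain ⟨G, hG⟩ : ∃ G : SimpleGraph R, G = SimpleGraph.fromRel (fun u v : R => ¬ good {(u : α), (v : α)}) :=
    ⟨_, rfl⟩
  have hadj : ∀ u v : R, G.Adj u v ↔ u ≠ v ∧ ¬ good {(u : α), (v : α)} := by
    intro u v
    rw [hG, SimpleGraph.fromRel_adj, pair_comm (v : α) (u : α), or_self]
  have hcf : G.CliqueFree 5 := by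
    intro F hF
    rw [SimpleGraph.isNClique_iff, SimpleGraph.isClique_iff] at hF
    obtain ⟨hF1, hF2⟩ := hF
    obtain ⟨U, hU, hUc, hUg⟩ := hcon (F.map ⟨Subtype.val, Subtype.val_injective⟩) (by
      intro x hx
      rw [mem_map] at hx
      obtain ⟨y, _, rfl⟩ := hx
      exact y.2) (by rw [card_map, hF2])
    obtain ⟨a, b, hab, rfl⟩ := card_eq_two.1 hUc
    have ha := hU (mem_insert_self a {b})
    have hb := hU (mem_insert_of_mem (mem_singleton_self b))
    rw [mem_map] at ha hb
    obtain ⟨a', ha', rfl⟩ := ha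
    obtain ⟨b', hb', rfl⟩ := hb
    have hne : a' ≠ b' := fun h => hab (by rw [h])
    have := hF1 (mem_coe.2 ha') (mem_coe.2 hb') hne
    rw [hadj] at this
    exact this.2 hUg
  -- the number of the edges
  have h1 : G.edgeFinset.card + ((powersetCard 2 R).filter good).card = R.card.choose 2 := by
    have h2 := card_filter_add_card_filter_not (s := powersetCard 2 R) good
    rw [card_powersetCard] at h2
    rw [← h2, add_comm]
    congr 1
    refine card_bij (fun e _ => (e.toFinset).map ⟨Subtype.val, Subtype.val_injective⟩) ?_ ?_ ?_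
    · intro e he
      induction e with
      | _ u v =>
        rw [SimpleGraph.mem_edgeFinset, SimpleGraph.mem_edgeSet, hadj] at he
        have e1 : (s(u, v)).toFinset = {u, v} := by
          ext x
          simp
        rw [e1]
        have e2 : ({u, v} : Finset R).map ⟨Subtype.val, Subtype.val_injective⟩ = {(u : α), (v : α)} := by
          simp [map_insert]
        rw [e2, mem_filter, mem_powersetCard]
        refine ⟨⟨?_, ?_⟩, he.2⟩
        · intro x hx
          rw [mem_insert, mem_singleton] at hx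
          rcases hx with rfl | rfl
          · exact u.2
          · exact v.2
        · rw [card_pair]
          intro h
          exact he.1 (Subtype.ext h)
    · intro e _ e' _ h
      have := map_injective _ h
      refine Sym2.ext fun x => ?_
      rw [← Sym2.mem_toFinset, ← Sym2.mem_toFinset, this]
    · intro U hU
      rw [mem_filter, mem_powersetCard] at hU
      obtain ⟨⟨hU1, hU2⟩, hU3⟩ := hU
      obtain ⟨a, b, hab, rfl⟩ := card_eq_two.1 hU2
      have ha := hU1 (mem_insert_self a {b})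
      have hb := hU1 (mem_insert_of_mem (mem_singleton_self b))
      refine ⟨s(⟨a, ha⟩, ⟨b, hb⟩), ?_, ?_⟩
      · rw [SimpleGraph.mem_edgeFinset, SimpleGraph.mem_edgeSet, hadj]
        exact ⟨fun h => hab (congrArg Subtype.val h), hU3⟩
      · have e1 : (s((⟨a, ha⟩ : R), ⟨b, hb⟩)).toFinset = {⟨a, ha⟩, ⟨b, hb⟩} := by
          ext x
          simp
        rw [e1]
        simp [map_insert]
  have h3 : 8 * G.edgeFinset.card ≤ 3 * R.card ^ 2 := by
    obtain ⟨H, _, maxH⟩ := SimpleGraph.exists_isTuranMaximal (V := R) (r := 4) (by norm_num)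
    have e1 : G.edgeFinset.card ≤ H.edgeFinset.card := by
      convert maxH.2 hcf
    have e2 := ((SimpleGraph.isTuranMaximal_iff_nonempty_iso_turanGraph (by norm_num)).mp maxH).some.card_edgeFinset_eq
    have e3 := SimpleGraph.mul_card_edgeFinset_turanGraph_le (n := Fintype.card R) (r := 4)
    have e4 : Fintype.card R = R.card := Fintype.card_coe R
    rw [e4] at e3
    have e5 : H.edgeFinset.card = (SimpleGraph.turanGraph (Fintype.card R) 4).edgeFinset.card := by
      convert e2
    rw [e4] at e5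
    omega
  have h4 : ((G.edgeFinset.card : ℕ) : ℝ) + ((((powersetCard 2 R).filter good).card : ℕ) : ℝ) =
      (R.card.choose 2 : ℝ) := by exact_mod_cast h1
  have h5 : 8 * ((G.edgeFinset.card : ℕ) : ℝ) ≤ 3 * (R.card : ℝ) ^ 2 := by exact_mod_cast h3
  have h6 : (R.card.choose 2 : ℝ) = (R.card : ℝ) * (R.card - 1) / 2 := Nat.cast_choose_two ℝ _
  nlinarith

open Classical in
/-- **Supersaturation**: if the bad `5 x L` boxes are few then a quarter of the pairs are good -/
theorem turan_boxes (L : ℕ) (hL : 1 ≤ L) (ε : ℝ) (hε : 0 < ε) : ∃ δ : ℝ, 0 < δ ∧ ∃ n0 : ℕ,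
    ∀ (α : Type) (V : Finset α) (good : Finset α → Prop) (Bad : Finset (Fin 5 × Fin L → α)),
      n0 ≤ V.card → (Bad.card : ℝ) ≤ δ * (V.card : ℝ) ^ (5 * L) →
      (∀ A : Fin 5 × Fin L → α, Function.Injective A → (∀ x, A x ∈ V) → A ∉ Bad →
        ∃ x x' : Fin 5 × Fin L, x.1 ≠ x'.1 ∧ good {A x, A x'}) →
      (1 / 4 - ε) * (V.card.choose 2 : ℝ) ≤ (((V.powersetCard 2).filter good).card : ℝ) := by
  -- the size of the sets for Turan's theorem
  obtain ⟨T0, hT0⟩ := exists_nat_ge (2 / ε)
  obtain ⟨T, hT⟩ : ∃ T, T = max T0 5 + 1 := ⟨_, rfl⟩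
  have hT5 : 5 ≤ T := by omega
  have hTε : 3 / 4 ≤ ε / 2 * ((T : ℝ) - 1) := by
    have h1 : (T0 : ℝ) + 1 ≤ T := by
      have : T0 + 1 ≤ T := by omega
      exact_mod_cast this
    have h2 : 2 / ε ≤ (T : ℝ) - 1 := by linarith
    rw [div_le_iff₀ hε] at h2
    linarith
  have hTr : (5 : ℝ) ≤ T := by exact_mod_cast hT5
  obtain ⟨q, hq⟩ : ∃ q, q = 1 / 4 - ε / 2 := ⟨_, rfl⟩
  have hqT : q * (T.choose 2 : ℝ) ≤ (T : ℝ) ^ 2 / 8 - T / 2 := by
    rw [hq, Nat.cast_choose_two]
    nlinarith
  -- the constants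
  obtain ⟨c, hc⟩ : ∃ c : ℝ, c = ε / 2 / (T.choose 5 * (2 ^ 5 * (5 : ℕ).factorial)) := ⟨_, rfl⟩
  have hT5c : (0 : ℝ) < T.choose 5 := by exact_mod_cast Nat.choose_pos hT5
  have hc0 : 0 < c := by
    rw [hc]
    have : (0 : ℝ) < ((5 : ℕ).factorial : ℝ) := by exact_mod_cast Nat.factorial_pos _
    positivity
  obtain ⟨c', hc'⟩ : ∃ c' : ℝ, c' = c ^ (L ^ 5) := ⟨_, rfl⟩
  have hc'0 : 0 < c' := by rw [hc']; positivity
  obtain ⟨N, hN⟩ : ∃ N, N = 5 * L := ⟨_, rfl⟩
  have hN1 : 1 ≤ N := by omega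
  obtain ⟨n1, hn1⟩ := exists_nat_ge (4 * (N : ℝ) ^ 2 / c')
  refine ⟨c' / 4, by positivity, max (max (2 * T) 10) (n1 + 1), ?_⟩
  intro α V good Bad hV hBad hP
  rw [← hN] at hBad
  by_contra hcon
  push Not at hcon
  obtain ⟨n, hn⟩ : ∃ n, n = V.card := ⟨_, rfl⟩
  rw [← hn] at hV hBad hcon
  have hn2T : 2 * T ≤ n := (le_max_left _ _).trans ((le_max_left _ _).trans hV)
  have hn10 : 10 ≤ n := (le_max_right _ _).trans ((le_max_left _ _).trans hV)
  have hn1' : (n1 : ℝ) + 1 ≤ n := by exact_mod_cast (le_max_right _ _).trans hV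
  have hnpos : (0 : ℝ) < n := by
    have : (0 : ℝ) ≤ n1 := Nat.cast_nonneg _
    linarith
  have hncard : 0 < n := by exact_mod_cast hnpos
  -- (1) many `T`-sets with few good pairs
  obtain ⟨g, hg⟩ : ∃ g : Finset α → ℕ, g = fun R => ((powersetCard 2 R).filter good).card := ⟨_, rfl⟩
  obtain ⟨RR, hRR⟩ : ∃ RR, RR = (V.powersetCard T).filter (fun R => ((g R : ℕ) : ℝ) < q * T.choose 2) := ⟨_, rfl⟩
  have s1 : ε / 2 * (n.choose T : ℝ) ≤ (RR.card : ℝ) := by
    have e1 := sum_good V T 2 good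
    have e1' : ∑ R ∈ V.powersetCard T, ((g R : ℕ) : ℝ) ≤
        (((V.powersetCard 2).filter good).card : ℝ) * ((n - 2).choose (T - 2) : ℝ) := by
      rw [hg, hn]
      exact_mod_cast e1
    have e2 : (n.choose T : ℝ) * (T.choose 2 : ℝ) = (n.choose 2 : ℝ) * ((n - 2).choose (T - 2) : ℝ) := by
      exact_mod_cast Nat.choose_mul (n := n) (k := T) (s := 2) (by omega)
    have e3 : ∑ R ∈ V.powersetCard T, ((g R : ℕ) : ℝ) ≤ (q - ε / 2) * ((n.choose T : ℝ) * (T.choose 2 : ℝ)) := by
      refine e1'.trans ?_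
      rw [e2, ← mul_assoc]
      apply mul_le_mul_of_nonneg_right _ (Nat.cast_nonneg _)
      rw [hq]
      refine hcon.le.trans (le_of_eq ?_)
      ring
    have e4 : ((n.choose T : ℝ) - RR.card) * (q * T.choose 2) ≤ ∑ R ∈ V.powersetCard T, ((g R : ℕ) : ℝ) := by
      have e5 : ((V.powersetCard T).filter (fun R => ¬ ((g R : ℕ) : ℝ) < q * T.choose 2)).card =
          (n.choose T : ℝ) - RR.card := by
        have := card_filter_add_card_filter_not (s := V.powersetCard T) (fun R => ((g R : ℕ) : ℝ) < q * T.choose 2)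
        rw [card_powersetCard] at this
        rw [← hn, ← hRR] at this
        have h' : ((RR.card + ((V.powersetCard T).filter (fun R => ¬ ((g R : ℕ) : ℝ) < q * T.choose 2)).card : ℕ) : ℝ) =
            (n.choose T : ℝ) := by exact_mod_cast this
        push_cast at h'
        linarith
      rw [← e5]
      calc _ = ∑ _R ∈ (V.powersetCard T).filter (fun R => ¬ ((g R : ℕ) : ℝ) < q * T.choose 2), (q * T.choose 2) := by
            rw [sum_const, nsmul_eq_mul]
        _ ≤ ∑ R ∈ (V.powersetCard T).filter (fun R => ¬ ((g R : ℕ) : ℝ) < q * T.choose 2), ((g R : ℕ) : ℝ) := by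
            apply sum_le_sum
            intro R hR
            exact not_lt.1 (mem_filter.1 hR).2
        _ ≤ _ := sum_le_sum_of_subset_of_nonneg (filter_subset _ _) (fun _ _ _ => Nat.cast_nonneg _)
    have hTk : (0 : ℝ) < T.choose 2 := by exact_mod_cast Nat.choose_pos (by omega)
    have e6 : ((n.choose T : ℝ) - RR.card) * q ≤ (q - ε / 2) * (n.choose T : ℝ) := by
      have := e4.trans e3
      have e7 : (((n.choose T : ℝ) - RR.card) * q) * T.choose 2 ≤ ((q - ε / 2) * (n.choose T : ℝ)) * T.choose 2 := by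
        nlinarith
      exact le_of_mul_le_mul_right e7 hTk
    have e8 : (RR.card : ℝ) * q ≤ RR.card := by
      have : (0 : ℝ) ≤ RR.card := Nat.cast_nonneg _
      have hq1 : q ≤ 1 := by rw [hq]; linarith
      nlinarith
    nlinarith
  -- (2) many five element sets without good pairs
  obtain ⟨FF, hFF⟩ : ∃ FF, FF = (V.powersetCard 5).filter (fun F => ∀ U ⊆ F, U.card = 2 → ¬ good U) := ⟨_, rfl⟩
  have s2 : RR.card ≤ FF.card * (n - 5).choose (T - 5) := by
    have e1 : RR ⊆ FF.biUnion (fun F => (V.powersetCard T).filter (fun R => F ⊆ R)) := by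
      intro R hR
      rw [hRR, mem_filter] at hR
      have hRc := (mem_powersetCard.1 hR.1)
      obtain ⟨F, hF1, hF2, hF3⟩ := five_of_few R good q (by rw [hRc.2]; exact hqT) (by
        rw [hRc.2]
        have := hR.2
        rw [hg] at this
        exact this)
      rw [mem_biUnion]
      refine ⟨F, ?_, mem_filter.2 ⟨hR.1, hF1⟩⟩
      rw [hFF, mem_filter, mem_powersetCard]
      exact ⟨⟨hF1.trans hRc.1, hF2⟩, hF3⟩
    refine (card_le_card e1).trans (card_biUnion_le.trans ?_)
    rw [← smul_eq_mul]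
    apply sum_le_card_nsmul
    intro F hF
    rw [hFF, mem_filter, mem_powersetCard] at hF
    have h2 : (V \ F).card = n - 5 := by rw [card_sdiff_of_subset hF.1.1, hF.1.2, ← hn]
    rw [← h2, ← card_powersetCard]
    apply card_le_card_of_injOn (fun S => S \ F)
    · intro S hS
      rw [mem_coe, mem_filter, mem_powersetCard] at hS
      rw [mem_coe, mem_powersetCard]
      refine ⟨sdiff_subset_sdiff hS.1.1 (subset_refl _), ?_⟩
      rw [card_sdiff_of_subset hS.2, hS.1.2, hF.1.2]
    · intro S hS S' hS' h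
      rw [mem_coe, mem_filter, mem_powersetCard] at hS hS'
      beta_reduce at h
      rw [← sdiff_union_of_subset hS.2, h, sdiff_union_of_subset hS'.2]
  have s3 : ε / 2 / T.choose 5 * (n.choose 5 : ℝ) ≤ FF.card := by
    have e1 : (n.choose T : ℝ) * (T.choose 5 : ℝ) = (n.choose 5 : ℝ) * ((n - 5).choose (T - 5) : ℝ) := by
      exact_mod_cast Nat.choose_mul (n := n) (k := T) (s := 5) (by omega)
    have e2 : (RR.card : ℝ) ≤ FF.card * ((n - 5).choose (T - 5) : ℝ) := by exact_mod_cast s2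
    have e3 : (0 : ℝ) < ((n - 5).choose (T - 5) : ℝ) := by
      exact_mod_cast Nat.choose_pos (by omega)
    have e4 : ε / 2 * (n.choose T : ℝ) * T.choose 5 ≤ (FF.card * ((n - 5).choose (T - 5) : ℝ)) * T.choose 5 :=
      mul_le_mul_of_nonneg_right (s1.trans e2) hT5c.le
    have e5 : (ε / 2 * (n.choose 5 : ℝ)) * ((n - 5).choose (T - 5) : ℝ) ≤
        (FF.card * T.choose 5) * ((n - 5).choose (T - 5) : ℝ) := by
      calc _ = ε / 2 * ((n.choose 5 : ℝ) * ((n - 5).choose (T - 5) : ℝ)) := by ring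
        _ = ε / 2 * ((n.choose T : ℝ) * (T.choose 5 : ℝ)) := by rw [e1]
        _ ≤ _ := by linarith
    have e6 := le_of_mul_le_mul_right e5 e3
    rw [div_mul_eq_mul_div, div_le_iff₀ hT5c]
    exact e6
  -- (3) enumerations
  obtain ⟨B, hB⟩ : ∃ B, B = (Fintype.piFinset (fun _ : Fin 5 => V)).filter
    (fun x => Function.Injective x ∧ ∀ i j, i ≠ j → ¬ good {x i, x j}) := ⟨_, rfl⟩
  have s4 : FF.card ≤ B.card := by
    have e1 : ∀ R ∈ FF, ∃ x : Fin 5 → α, Function.Injective x ∧ univ.image x = R := by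
      intro R hR
      rw [hFF, mem_filter, mem_powersetCard] at hR
      have hRc := hR.1.2
      refine ⟨fun i => ((Finset.equivFinOfCardEq hRc).symm i : α), ?_, ?_⟩
      · intro i j hij
        exact (Finset.equivFinOfCardEq hRc).symm.injective (Subtype.ext hij)
      · ext y
        simp only [mem_image, mem_univ, true_and]
        constructor
        · rintro ⟨i, rfl⟩; exact ((Finset.equivFinOfCardEq hRc).symm i).2
        · intro hy
          exact ⟨(Finset.equivFinOfCardEq hRc) ⟨y, hy⟩, by simp⟩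
    have : Nonempty α := ⟨(card_pos.1 (by rw [← hn]; exact hncard)).choose⟩
    choose! xs hxs using e1
    apply card_le_card_of_injOn xs
    · intro R hR
      have hR' : R ∈ FF := hR
      obtain ⟨h1, h2⟩ := hxs R hR'
      rw [hFF, mem_filter, mem_powersetCard] at hR'
      rw [mem_coe, hB, mem_filter, Fintype.mem_piFinset]
      have hmem : ∀ i, xs R i ∈ R := by
        intro i
        have h3 : xs R i ∈ univ.image (xs R) := mem_image_of_mem _ (mem_univ i)
        rw [h2] at h3
        exact h3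
      refine ⟨fun i => hR'.1.1 (hmem i), h1, fun i j hij => ?_⟩
      apply hR'.2
      · intro y hy
        rw [mem_insert, mem_singleton] at hy
        rcases hy with rfl | rfl
        · exact hmem i
        · exact hmem j
      · exact card_pair (fun h => hij (h1 h))
    · intro R hR R' hR' h
      rw [← (hxs R hR).2, ← (hxs R' hR').2, h]
  have s5 : c * (n : ℝ) ^ 5 ≤ B.card := by
    have hf : (0 : ℝ) < (5 : ℕ).factorial := by exact_mod_cast Nat.factorial_pos _
    have e1 := Nat.pow_le_choose (α := ℝ) 5 n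
    have e2 : (n : ℝ) / 2 ≤ ((n + 1 - 5 : ℕ) : ℝ) := by
      rw [Nat.cast_sub (by omega)]
      push_cast
      have : (10 : ℝ) ≤ n := by exact_mod_cast hn10
      linarith
    have e3 : ((n : ℝ) / 2) ^ 5 / (5 : ℕ).factorial ≤ (n.choose 5 : ℝ) :=
      (div_le_div_of_nonneg_right (pow_le_pow_left₀ (by positivity) e2 5) hf.le).trans e1
    calc c * (n : ℝ) ^ 5 = ε / 2 / T.choose 5 * (((n : ℝ) / 2) ^ 5 / (5 : ℕ).factorial) := by
          rw [hc, div_pow]; field_simp
      _ ≤ ε / 2 / T.choose 5 * (n.choose 5 : ℝ) := mul_le_mul_of_nonneg_left e3 (by positivity)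
      _ ≤ FF.card := s3
      _ ≤ B.card := by exact_mod_cast s4
  -- (4) boxes
  have hne : Nonempty (Fin L) := ⟨⟨0, hL⟩⟩
  have s6 := box_count (ι := Fin L) V (by rw [← hn]; exact hncard) 5 B c hc0.le (by
    intro f hf i
    rw [hB, mem_filter, Fintype.mem_piFinset] at hf
    exact hf.1 i) (by rw [← hn]; exact s5)
  rw [Fintype.card_fin, ← hc', ← hn, ← hN] at s6
  obtain ⟨BX, hBX⟩ : ∃ BX, BX = (boxes V (Fin L) B).image (fun A (x : Fin 5 × Fin L) => A x.1 x.2) := ⟨_, rfl⟩
  have hBXc : BX.card = (boxes V (Fin L) B).card := by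
    rw [hBX]
    apply card_image_of_injective
    intro A A' h
    funext i x
    exact congrFun h (i, x)
  have s7 : BX ⊆ Bad ∪ (Fintype.piFinset (fun _ : Fin 5 × Fin L => V)).filter (fun f => ¬ Function.Injective f) := by
    intro f hf
    rw [hBX] at hf
    obtain ⟨A, hA, rfl⟩ := mem_image.1 hf
    have hA' := hA
    unfold boxes at hA'
    rw [mem_filter, Fintype.mem_piFinset] at hA'
    have hmem : (fun x : Fin 5 × Fin L => A x.1 x.2) ∈ Fintype.piFinset (fun _ : Fin 5 × Fin L => V) := by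
      rw [Fintype.mem_piFinset]
      intro x
      have h9 := hA'.1 x.1
      rw [Fintype.mem_piFinset] at h9
      exact h9 x.2
    rw [mem_union]
    by_cases hi : Function.Injective (fun x : Fin 5 × Fin L => A x.1 x.2)
    · left
      by_contra hnb
      obtain ⟨x, x', hxx, hgd⟩ := hP _ hi (fun x => Fintype.mem_piFinset.1 hmem x) hnb
      -- a transversal through `x`, `x'`
      have h1 := hA'.2 (fun i => if i = x.1 then x.2 else x'.2)
      rw [hB, mem_filter] at h1
      refine h1.2.2 x.1 x'.1 hxx ?_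
      have e1 : A x.1 (if x.1 = x.1 then x.2 else x'.2) = A x.1 x.2 := by rw [if_pos rfl]
      have e2 : A x'.1 (if x'.1 = x.1 then x.2 else x'.2) = A x'.1 x'.2 := by rw [if_neg (Ne.symm hxx)]
      simp only [e1, e2]
      exact hgd
    · right
      exact mem_filter.2 ⟨hmem, hi⟩
  have s8 : ((BX.card : ℕ) : ℝ) ≤ c' / 4 * (n : ℝ) ^ N + (N : ℝ) ^ 2 * (n : ℝ) ^ (N - 1) := by
    have e1 := (card_le_card s7).trans (card_union_le _ _)
    have e2 := card_not_inj_le (I := Fin 5 × Fin L) V
    have hcI : Fintype.card (Fin 5 × Fin L) = N := by simp [hN]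
    rw [hcI, ← hn] at e2
    have e3 : BX.card ≤ Bad.card + N ^ 2 * n ^ (N - 1) := e1.trans (Nat.add_le_add_left e2 _)
    have e4 : ((BX.card : ℕ) : ℝ) ≤ (Bad.card : ℝ) + (N : ℝ) ^ 2 * (n : ℝ) ^ (N - 1) := by exact_mod_cast e3
    linarith
  have s9 : (N : ℝ) ^ 2 * (n : ℝ) ^ (N - 1) ≤ c' / 4 * (n : ℝ) ^ N := by
    have h1 : (n : ℝ) ^ N = n * (n : ℝ) ^ (N - 1) := by
      rw [← pow_succ']; congr 1; omega
    rw [h1, ← mul_assoc]
    apply mul_le_mul_of_nonneg_right _ (by positivity)
    have h2 : 4 * (N : ℝ) ^ 2 / c' ≤ n := by linarith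
    rw [div_le_iff₀ hc'0] at h2
    linarith
  rw [hBXc] at s8
  have h9 : (0 : ℝ) < (n : ℝ) ^ N := by positivity
  nlinarith

end Pool.Agent.Zk41.Q
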