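import Mathlib
import Pool.Agent.Zk41.QLow
import Pool.Agent.Zk41.QTur
import Pool.Agent.Y877.RgJ
import Pool.Agent.H362R2.QT.Fin2

/-! A quarter of the pairs in one class are consecutive primes. -/

set_option autoImplicit false

open Finset Filter Topology

namespace Pool.Agent.Zk41.Q

open Pool.Agent.H378R2 Pool.Agent.H387R2 Pool.Agent.H387R2.MB Pool.Agent.H362R2.QT Pool.Agent.Y877.RO

open Classical in
/-- a pair of consecutive primes in different rows -/
theorem cross_pair5 (T K' : ℕ) (A : Fin T × Fin K' → ℕ) (n M0 : ℕ) (hAM : ∀ x, A x ≤ M0)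
    (h1 : 2 ≤ ((univ : Finset (Fin T)).filter (fun g => ∃ j, (n + A (g, j)).Prime)).card)
    (h2 : ∀ j ≤ M0, (n + j).Prime → ∃ x, A x = j) :
    ∃ x x', x.1 ≠ x'.1 ∧ A x ≤ A x' ∧ EvC n {A x, A x'} := by
  obtain ⟨P, hP⟩ : ∃ P : Finset ((Fin T × Fin K') × (Fin T × Fin K')), P = univ.filter (fun z =>
    z.1.1 ≠ z.2.1 ∧ A z.1 ≤ A z.2 ∧ (n + A z.1).Prime ∧ (n + A z.2).Prime) := ⟨_, rfl⟩
  have hne : P.Nonempty := by
    obtain ⟨g, hg, g', hg', hgg⟩ := one_lt_card.1 (by omega :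
      1 < ((univ : Finset (Fin T)).filter (fun g => ∃ j, (n + A (g, j)).Prime)).card)
    obtain ⟨j, hj⟩ := (mem_filter.1 hg).2
    obtain ⟨j', hj'⟩ := (mem_filter.1 hg').2
    rcases le_total (A (g, j)) (A (g', j')) with h | h
    · refine ⟨((g, j), (g', j')), ?_⟩
      rw [hP, mem_filter]
      exact ⟨mem_univ _, hgg, h, hj, hj'⟩
    · refine ⟨((g', j'), (g, j)), ?_⟩
      rw [hP, mem_filter]
      exact ⟨mem_univ _, Ne.symm hgg, h, hj', hj⟩
  obtain ⟨z, hz, hmin⟩ := exists_min_image P (fun z => A z.2 - A z.1) hne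
  rw [hP, mem_filter] at hz
  obtain ⟨-, hz1, hz2, hz3, hz4⟩ := hz
  refine ⟨z.1, z.2, hz1, hz2, ?_, ?_⟩
  · intro t ht
    rw [mem_insert, mem_singleton] at ht
    rcases ht with rfl | rfl
    · exact hz3
    · exact hz4
  · have hno : ∀ s, A z.1 < s → s < A z.2 → ¬ (n + s).Prime := by
      intro s hs1 hs2 hsp
      obtain ⟨w, hw⟩ := h2 s (hs2.le.trans (hAM _)) hsp
      by_cases hc : z.1.1 = w.1
      · have hwP : (w, z.2) ∈ P := by
          rw [hP, mem_filter]
          refine ⟨mem_univ _, fun h3 => hz1 (hc.trans h3), ?_, ?_, hz4⟩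
          · rw [hw]; exact hs2.le
          · rw [hw]; exact hsp
        have := hmin _ hwP
        simp only [hw] at this
        omega
      · have hwP : (z.1, w) ∈ P := by
          rw [hP, mem_filter]
          refine ⟨mem_univ _, hc, ?_, hz3, ?_⟩
          · rw [hw]; exact hs1.le
          · rw [hw]; exact hsp
        have := hmin _ hwP
        simp only [hw] at this
        omega
    intro t ht t' ht' s hs1 hs2
    rw [mem_insert, mem_singleton] at ht ht'
    rcases ht with rfl | rfl <;> rcases ht' with rfl | rfl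
    · omega
    · exact hno s hs1 hs2
    · omega
    · omega

open Classical in
/-- **A quarter of the pairs in one class.** -/
theorem quarter_class (ε : ℝ) (hε : 0 < ε) : ∃ l0 : ℝ, 0 < l0 ∧ ∀ lam : ℝ, 0 < lam → ∃ κ : ℝ, 0 < κ ∧
    ∀ᶠ N : ℕ in atTop, ∀ (b : ℕ) (S : Finset ℕ), (∀ a ∈ S, a ≤ ⌊l0 * Real.log N⌋₊) →
      (∀ a ∈ S, Nat.Coprime (Uni.WW ⌊Real.log (Real.log N)⌋₊) (b + a)) →
      lam * rho ⌊Real.log (Real.log N)⌋₊ * Real.log N ≤ S.card →
      (1 / 4 - ε) * (S.card.choose 2 : ℝ) ≤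
        (((S.powersetCard 2).filter (fun T => GoodC κ N ⌊Real.log (Real.log N)⌋₊ b T)).card : ℝ) := by
  obtain ⟨K', hK', δ, hδ, hδ2, c00, hc00, hlow0⟩ :=
    LOWT (COLT FAM TOT ONE pair_holds) 2 5 (by norm_num) (by norm_num)
  obtain ⟨l0, hl0, hlow⟩ := low_cleanT 2 5 K' δ c00 hδ (by linarith) hc00 hlow0
  obtain ⟨c0, hc0e⟩ : ∃ c0, c0 = c00 / 2 := ⟨_, rfl⟩
  have hc0 : 0 < c0 := by rw [hc0e]; positivity
  rw [← hc0e] at hlow
  obtain ⟨δ', hδ', n0, hd⟩ := turan_boxes K' hK' ε hε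
  refine ⟨l0, hl0, fun lam hlam => ?_⟩
  have hKr : 1 + 1 ≤ 5 * K' := by omega
  set J := 5 * K' - (1 + 1) with hJ
  obtain ⟨C1, hC1, hupp1⟩ := upp_eventually (1 + 1) hδ
  obtain ⟨C2, hC2, hupp2⟩ := upp_eventually (1 + 1 + 2 * J) hδ
  set D := Dc (1 + 1) J * (C1 / lam ^ (2 * J) + C2) with hD
  have hD0 : 0 ≤ D := by
    have : 0 ≤ Dc (1 + 1) J := by unfold Dc; positivity
    positivity
  have hKpos : (0:ℝ) < ((5 * K' : ℕ) : ℝ) := by exact_mod_cast (by omega : 0 < 5 * K')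
  set κ0 : ℝ := 2 * c0 * δ' / ((1 + D) * ((5 * K' : ℕ) : ℝ) ^ (1 + 1)) with hκ0
  have hκ : 0 < κ0 := by positivity
  refine ⟨κ0 ^ 2, by positivity, ?_⟩
  have tN : Tendsto (fun N : ℕ => (N : ℝ)) atTop atTop := tendsto_natCast_atTop_atTop
  have tL : Tendsto (fun N : ℕ => Real.log (N : ℝ)) atTop atTop := Real.tendsto_log_atTop.comp tN
  have tX : Tendsto (fun N : ℕ => (N : ℝ) / 4) atTop atTop := tN.atTop_div_const (by norm_num)
  filter_upwards [hlow, hupp1 2, hupp2 2, (LL_tendsto.comp tX).eventually_ge_atTop 1, tX.eventually MPhi_big,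
    tX.eventually_ge_atTop 4, tL.eventually_gt_atTop 0, tL.eventually_ge_atTop l0, r0_big lam n0 hlam] with
    N h1 h2 h3 h4 h5 h6 h8 h9 h7
  set X := (N:ℝ) / 4 with hX
  set y := ⌊Real.log (Real.log (N:ℝ))⌋₊ with hy
  have hL0 : 0 < LL X := by
    have : 1 ≤ LL X := h4
    linarith
  have hρ := rho_pos y
  have hMP : 0 < MPhi X := lt_of_lt_of_le (by positivity) h5
  have hMM : ⌊l0 * Real.log (N : ℝ)⌋₊ ≤ ⌊Real.log (N : ℝ) ^ (2 : ℝ)⌋₊ := by
    apply Nat.floor_le_floor
    rw [Real.rpow_two, sq]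
    exact mul_le_mul_of_nonneg_right h9 h8.le
  intro b S hSM0 hSc hScard
  have hn0 : n0 ≤ S.card := by exact_mod_cast h7.trans hScard
  have hSM : ∀ a ∈ S, a ≤ ⌊Real.log (N : ℝ) ^ (2 : ℝ)⌋₊ := fun a ha => (hSM0 a ha).trans hMM
  set g := LL X * rho y with hg
  have hg0 : 0 < g := by positivity
  have hW0 : (0:ℝ) < (Uni.WW y : ℝ) := by exact_mod_cast Uni.WW_pos y
  have hU : 0 < UU (1 + 1) X y := by unfold UU; positivity
  have hsg : lam * g ≤ S.card := by
    refine le_trans ?_ hScard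
    have : LL X ≤ Real.log N := by
      unfold LL
      have e1 : Real.log X ≤ Real.log N := Real.log_le_log (by linarith) (by
        have : (0:ℝ) ≤ N := Nat.cast_nonneg N
        rw [hX]; linarith)
      linarith
    calc lam * g = lam * rho y * LL X := by rw [hg]; ring
      _ ≤ _ := mul_le_mul_of_nonneg_left this (by positivity)
  have hcardI : Fintype.card (Fin 5 × Fin K') = 1 + 1 + J := by
    rw [Fintype.card_prod, Fintype.card_fin, Fintype.card_fin]
    omega
  obtain ⟨Fail, hFail⟩ : ∃ Fail : Finset (Fin 5 × Fin K' → ℕ), Fail =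
    (Fintype.piFinset (fun _ => S)).filter (fun A => Function.Injective A ∧
      ∀ x x', x.1 ≠ x'.1 → ¬ GoodC (κ0 ^ 2) N y b {A x, A x'}) := ⟨_, rfl⟩
  have hbound := absSME (ι := Fin 5 × Fin K') (Icc 1 ⌊3 * X⌋₊) (fun n => nu X (Uni.WW y) b n)
    (fun n => nu_nonneg X _ b n) (fun n a => Rg δ X (n + a)) EvC S (1 + 1) J hcardI
    (UU (1 + 1) X y) g c0 C1 C2 lam κ0 hU hg0 hC1.le hC2.le hlam hsg hκ
    (fun T hT hTr => h2 b T hTr (fun a ha => hSM a (hT ha)))
    (fun R hR hRr => by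
      have := h3 b R hRr (fun a ha => hSM a (hR ha))
      rw [Pool.Agent.H362R2.QT.UU_add] at this
      exact this)
    Fail (by
      intro A hA
      rw [hFail, mem_filter, Fintype.mem_piFinset] at hA
      obtain ⟨hAS, hAinj, hAn⟩ := hA
      refine ⟨hAS, ?_⟩
      have hl := h1 b A hAinj (fun x => hSM0 _ (hAS x)) (fun x => hSc _ (hAS x))
      have e1 : UU (5 * K') X y = UU (1 + 1) X y / g ^ J := by
        rw [← Pool.Agent.H362R2.QT.UU_add]
        congr 1
        omega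
      rw [e1] at hl
      refine hl.trans (sum_le_sum fun n _ => ?_)
      apply mul_le_mul_of_nonneg_left _ (nu_nonneg X _ b n)
      by_cases hc : ((2 ≤ ((univ : Finset (Fin 5)).filter (fun g => ∃ j, (n + A (g, j)).Prime)).card) ∧
        (∀ x, Rg δ X (n + A x))) ∧ ∀ j ≤ ⌊l0 * Real.log (N : ℝ)⌋₊, (n + j).Prime → ∃ x, A x = j
      · rw [if_pos hc, if_pos]
        refine ⟨?_, hc.1.2⟩
        obtain ⟨x, x', hxx, hle, hev⟩ := cross_pair5 5 K' A n _ (fun x => hSM0 _ (hAS x)) hc.1.1 hc.2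
        have hxne : A x ≠ A x' := fun h => hxx (by rw [hAinj h])
        refine ⟨{A x, A x'}, ?_, by rw [card_pair hxne], ?_, hev⟩
        · intro t ht
          rw [mem_insert, mem_singleton] at ht
          rcases ht with rfl | rfl
          · exact mem_image_of_mem _ (mem_univ _)
          · exact mem_image_of_mem _ (mem_univ _)
        · have hU3 := hAn x x' hxx
          unfold GoodC at hU3
          rw [not_le] at hU3
          refine lt_of_le_of_lt (le_of_eq (sum_congr rfl fun n' _ => congrArg _ ?_)) hU3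
          by_cases h9 : EvC n' {A x, A x'}
          · rw [if_pos h9]
          · rw [if_neg h9]
      · rw [if_neg hc]
        split_ifs <;> norm_num)
  rw [← hD] at hbound
  have e2 : κ0 * ((1 + D) / 2) * ((Fintype.card (Fin 5 × Fin K') : ℝ) ^ (1 + 1) * (S.card : ℝ) ^ (1 + 1 + J)) =
      c0 * (δ' * (S.card : ℝ) ^ (5 * K')) := by
    have e3 : 1 + 1 + J = 5 * K' := by omega
    rw [hcardI, e3, hκ0]
    field_simp
  rw [e2] at hbound
  have hFc := le_of_mul_le_mul_left hbound hc0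
  refine hd ℕ S (fun T => GoodC (κ0 ^ 2) N y b T) Fail hn0 hFc ?_
  intro A hAinj hAS hAF
  by_contra hcon
  push Not at hcon
  apply hAF
  rw [hFail, mem_filter, Fintype.mem_piFinset]
  refine ⟨hAS, hAinj, fun x x' hxx => ?_⟩
  have h9 := hcon x x' hxx
  have e9 : ∀ S1 S2 : Finset ℕ, (∀ t, t ∈ S1 ↔ t ∈ S2) → GoodC (κ0 ^ 2) N y b S1 →
      GoodC (κ0 ^ 2) N y b S2 := by
    intro S1 S2 h hG
    rw [← Finset.ext h]
    exact hG
  intro hG
  refine h9 (e9 _ _ (fun t => ?_) hG)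
  constructor
  · intro h
    rw [mem_insert, mem_singleton] at h
    rcases h with h | h
    · exact (@Finset.mem_insert ℕ (fun a b => Classical.propDecidable (a = b)) _ _ _).mpr (Or.inl h)
    · exact (@Finset.mem_insert ℕ (fun a b => Classical.propDecidable (a = b)) _ _ _).mpr
        (Or.inr (Finset.mem_singleton.mpr h))
  · intro h
    rw [mem_insert, mem_singleton]
    rcases (@Finset.mem_insert ℕ (fun a b => Classical.propDecidable (a = b)) _ _ _).mp h with h | h
    · exact Or.inl h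
    · exact Or.inr (Finset.mem_singleton.mp h)

end Pool.Agent.Zk41.Q
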