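import Mathlib
import Pool.Agent.Zk41.QFail
import Pool.Agent.H362R2.QT.FIN

/-! A quarter of the pairs of a dense set are gaps between consecutive primes (after FIN.lean of helper362). -/

set_option autoImplicit false

open Finset Filter Topology

namespace Pool.Agent.Zk41.Q

open Pool.Agent.H378R2 Pool.Agent.H387R2 Pool.Agent.H387R2.MB Pool.Agent.H362R2.QT Pool.Agent.Y877.RO

lemma nGG_le (GG : ℕ → Finset ℕ → Prop) (y : ℕ) (T : Finset ℕ) : nGG GG y T ≤ Uni.gT (Uni.WW y) T := by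
  classical
  unfold nGG Uni.gT
  apply card_le_card
  intro b hb
  rw [mem_filter] at hb ⊢
  exact ⟨hb.1, hb.2.1⟩

open Classical in
lemma sum_nGG (GG : ℕ → Finset ℕ → Prop) (k y : ℕ) (A : Finset ℕ) :
    ∑ b ∈ range (Uni.WW y), (((Uni.Ab (Uni.WW y) A b).powersetCard (k + 1)).filter (fun T => GG b T)).card =
      ∑ T ∈ A.powersetCard (k + 1), nGG GG y T := by
  have h1 : ∀ b ∈ range (Uni.WW y), (((Uni.Ab (Uni.WW y) A b).powersetCard (k + 1)).filter (fun T => GG b T)).card =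
      ∑ T ∈ A.powersetCard (k + 1), if (∀ t ∈ T, Nat.Coprime (Uni.WW y) (b + t)) ∧ GG b T then 1 else 0 := by
    intro b _
    rw [← card_filter]
    congr 1
    ext T
    unfold Uni.Ab
    simp only [mem_filter, mem_powersetCard, subset_iff]
    constructor
    · rintro ⟨⟨h1, h2⟩, h3⟩
      exact ⟨⟨fun a ha => (h1 ha).1, h2⟩, fun a ha => (h1 ha).2, h3⟩
    · rintro ⟨⟨h1, h2⟩, h3, h4⟩
      exact ⟨⟨fun a ha => ⟨h1 ha, h3 a ha⟩, h2⟩, h4⟩
  rw [sum_congr rfl h1, sum_comm]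
  apply sum_congr rfl
  intro T _
  unfold nGG
  rw [card_filter]

open Classical in
theorem finCk (k : ℕ) (hk1 : k = 1) (ε : ℝ) (hε : 0 < ε) : ∃ l : ℝ, 0 < l ∧ ∀ lam : ℝ, 0 < lam → ∃ κ : ℝ, 0 < κ ∧
    ∀ q : ℕ, 1 ≤ q → ∃ N₀ : ℕ, ∀ N : ℕ, N₀ ≤ N → ∀ (c : ℕ) (A : Finset ℕ), (∀ a ∈ A, a ≡ c [MOD q]) →
      (∀ a ∈ A, (a : ℝ) ≤ l * Real.log N) → lam * ((Nat.totient q : ℝ) / q) * Real.log N ≤ A.card →
      ((1 / 4 : ℝ) ^ k - ε) * ∑ T ∈ A.powersetCard (k + 1), Uni.CT T ≤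
        ∑ T ∈ (A.powersetCard (k + 1)).filter
          (fun T => κ * Uni.CT T * (N / Real.log N ^ (k + 1)) ≤ STE N T), Uni.CT T := by
  classical
  have hk : 1 ≤ k := hk1.ge
  obtain ⟨C, hC⟩ : ∃ C : ℝ, C = 2 := ⟨_, rfl⟩
  set e1 : ℝ := min ε ((1 / 4 : ℝ) ^ k) with he1
  have he10 : 0 < e1 := lt_min hε (by positivity)
  have he1ε : e1 ≤ ε := min_le_left _ _
  have he14 : e1 ≤ (1 / 4 : ℝ) ^ k := min_le_right _ _
  have h41 : (1 / 4 : ℝ) ^ k ≤ 1 := pow_le_one₀ (by norm_num) (by norm_num)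
  set η : ℝ := e1 / 16 with hη
  have hη0 : 0 < η := by positivity
  obtain ⟨l0, hl0, hsm0⟩ := quarter_class (e1 / 4) (by positivity)
  refine ⟨l0, hl0, fun lam hlam => ?_⟩
  set lam2 : ℝ := η * (2 / 3 * lam) with hlam2
  have hlam20 : 0 < lam2 := by positivity
  obtain ⟨κ1, hκ1, hsm⟩ := hsm0 lam2 hlam20
  refine ⟨e1 / 8 * κ1 / 2, by positivity, fun q hq => ?_⟩
  have tN : Tendsto (fun N : ℕ => (N : ℝ)) atTop atTop := tendsto_natCast_atTop_atTop
  have tL : Tendsto (fun N : ℕ => Real.log (N : ℝ)) atTop atTop := Real.tendsto_log_atTop.comp tN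
  have tX : Tendsto (fun N : ℕ => (N : ℝ) / 4) atTop atTop := tN.atTop_div_const (by norm_num)
  rw [← eventually_atTop]
  filter_upwards [hsm, CTS k (e1 / 8) C (by positivity), Uni.par_eventually k C (by norm_num : (0:ℝ) < 1 / 2) (by norm_num) q,
    M_le_sqrt C, (LL_tendsto.comp tX).eventually_ge_atTop 1,
    tX.eventually_ge_atTop (40 + (k + 1)), r0_ev (2 / 3 * lam) (2 * k) (by positivity),
    tL.eventually_ge_atTop l0, tL.eventually_gt_atTop 0]
    with N h1 h2 hP h5 h6 h7 h8 hLl hLp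
  intro r A hAr hAM' hcard
  have hAM0 : ∀ a ∈ A, a ≤ ⌊l0 * Real.log N⌋₊ := fun a ha => Nat.le_floor (hAM' a ha)
  have hMM : ⌊l0 * Real.log (N : ℝ)⌋₊ ≤ ⌊Real.log (N : ℝ) ^ C⌋₊ := by
    apply Nat.floor_le_floor
    rw [hC, Real.rpow_two, sq]
    exact mul_le_mul_of_nonneg_right hLl hLp.le
  have hAM : ∀ a ∈ A, a ≤ ⌊Real.log N ^ C⌋₊ := fun a ha => (hAM0 a ha).trans hMM
  set M := ⌊Real.log N ^ C⌋₊ with hM
  set X := (N:ℝ) / 4 with hX
  set y := ⌊Real.log (Real.log (N:ℝ))⌋₊ with hy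
  set W := Uni.WW y with hW
  set L := Real.log (N:ℝ) with hL
  have hL1 : 1 ≤ L := hP.hL
  have hL0 : 0 < L := by linarith
  have hLL1 : 1 ≤ LL X := h6
  have hLL0 : 0 < LL X := by linarith
  have hρ := rho_pos y
  have hρ1 := rho_le_one y
  have hWpos : 0 < W := Uni.WW_pos y
  have hW0 : (0:ℝ) < W := by exact_mod_cast hWpos
  have hk0 : (0:ℝ) ≤ k := Nat.cast_nonneg k
  have hX40 : 40 ≤ X := by linarith
  have hX0 : 0 < X := by linarith
  have hNX : (N:ℝ) = 4 * X := by rw [hX]; ring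
  have hLLL2 : 200 * LL X ≤ L := by
    unfold LL
    rw [show 200 * (Real.log X / 200) = Real.log X by ring, hL]
    apply Real.log_le_log hX0
    linarith
  set V : ℝ := N / L ^ (k + 1) with hV
  have hV0 : 0 ≤ V := by positivity
  have hMl : X / 20 ≤ MPhi X := MPhi_ge X hX40
  have hUe : ∀ g : ℝ, g * UU (k + 1) X y = ((1 / rho y) ^ (k + 1) * (g / W)) * (MPhi X / LL X ^ (k + 1)) := by
    intro g
    unfold UU
    rw [← hW, mul_pow, one_div_pow]
    field_simp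
  have hr1 : V ≤ MPhi X / LL X ^ (k + 1) := by
    have h9 : (200:ℝ) ^ (k + 1) / 80 * V ≤ MPhi X / LL X ^ (k + 1) := by
      rw [hV, hNX]
      have : (200:ℝ) ^ (k + 1) / 80 * (4 * X / L ^ (k + 1)) = (X / 20) / (L / 200) ^ (k + 1) := by
        rw [div_pow]; field_simp; ring
      rw [this]
      apply div_le_div₀ (MPhi_nonneg X) hMl (by positivity)
      apply pow_le_pow_left₀ hLL0.le
      linarith
    refine le_trans ?_ h9
    have h10 : (1:ℝ) ≤ 200 ^ (k + 1) / 80 := by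
      rw [le_div_iff₀ (by norm_num)]
      calc (1:ℝ) * 80 ≤ 200 ^ 1 := by norm_num
        _ ≤ 200 ^ (k + 1) := pow_le_pow_right₀ (by norm_num) (by omega)
    exact le_mul_of_one_le_left hV0 h10
  have hMX : (M:ℝ) ≤ X := by
    refine h5.trans ?_
    rw [Real.sqrt_le_left hX0.le, sq]
    calc X = X * 1 := (mul_one X).symm
      _ ≤ X * X := mul_le_mul_of_nonneg_left (by linarith) hX0.le
  -- the mean over the good classes
  set μ : ℝ := 2 / 3 * lam * rho y * L with hμ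
  have hμ0 : 0 ≤ μ := by positivity
  have hz : ∀ b ∈ range W, b ∉ Uni.gd W q r → Uni.Ab W A b = ∅ := by
    intro b hb hb'
    apply Uni.Ab_empty hW hP.hqy hq hAr
    intro h
    exact hb' (mem_filter.2 ⟨hb, h⟩)
  have hgd : Uni.gd W q r ⊆ range W := filter_subset _ _
  have hq0 : (0:ℝ) < q := by exact_mod_cast hq
  have hφq : (0:ℝ) < Nat.totient q := by exact_mod_cast Nat.totient_pos.2 hq
  have s2 : μ * ((Uni.gd W q r).card : ℝ) ≤ ∑ b ∈ Uni.gd W q r, ((Uni.Ab W A b).card : ℝ) := by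
    have g1 : ∑ b ∈ Uni.gd W q r, ((Uni.Ab W A b).card : ℝ) = ∑ b ∈ range W, ((Uni.Ab W A b).card : ℝ) :=
      sum_subset hgd fun b hb hb' => by rw [hz b hb hb']; simp
    have g2 : ∑ b ∈ range W, ((Uni.Ab W A b).card : ℝ) = A.card * Nat.totient W := by
      exact_mod_cast Uni.sum_card_Ab W A
    have g3 : (Nat.totient W : ℝ) = rho y * W := by
      unfold rho
      rw [← hW]
      field_simp
    have g4 : ((Uni.gd W q r).card : ℝ) ≤ (3 / 2) * (Nat.totient q / q * W) := by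
      have h7 : ((Uni.gd W q r).card : ℝ) ≤ Nat.totient q * ((W / q : ℕ) + 1) := by exact_mod_cast Uni.card_gd W q r hq
      have h8 : ((W / q : ℕ) : ℝ) ≤ W / q := Nat.cast_div_le
      have h9 : (1:ℝ) ≤ (1 / 2) * (W / q) := by
        rw [mul_div_assoc', le_div_iff₀ hq0, one_mul]; exact hP.hW4
      calc ((Uni.gd W q r).card : ℝ) ≤ Nat.totient q * ((W / q : ℕ) + 1) := h7
        _ ≤ Nat.totient q * (W / q + (1 / 2) * (W / q)) := by gcongr
        _ = _ := by field_simp; ring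
    rw [g1, g2, g3]
    calc μ * ((Uni.gd W q r).card : ℝ) ≤ μ * ((3 / 2) * (Nat.totient q / q * W)) :=
          mul_le_mul_of_nonneg_left g4 hμ0
      _ = (lam * ((Nat.totient q : ℝ) / q) * L) * (rho y * W) := by rw [hμ]; ring
      _ ≤ A.card * (rho y * W) := mul_le_mul_of_nonneg_right hcard (by positivity)
  have s3 := smallpart (I := Uni.gd W q r) (fun b => (Uni.Ab W A b).card) k (μ := μ) (η := η) h8 hμ0 s2 hη0 (by linarith)
  have s4 : ∑ T ∈ A.powersetCard (k + 1), (Uni.gT W T : ℝ) = ∑ b ∈ Uni.gd W q r, (((Uni.Ab W A b).card.choose (k + 1) : ℕ) : ℝ) := by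
    have g1 : ∑ b ∈ Uni.gd W q r, (((Uni.Ab W A b).card.choose (k + 1) : ℕ) : ℝ) =
        ∑ b ∈ range W, (((Uni.Ab W A b).card.choose (k + 1) : ℕ) : ℝ) :=
      sum_subset hgd fun b hb hb' => by rw [hz b hb hb']; simp
    rw [g1]
    have g2 := Uni.sum_choose (range W) A (k + 1) (fun b a => Nat.Coprime W (b + a))
    unfold Uni.gT Uni.Ab
    exact_mod_cast g2.symm
  -- sum over classes of the good tuples
  have s5 : ((1 / 4 : ℝ) ^ k - e1 / 4) * ∑ b ∈ (Uni.gd W q r).filter (fun b => η * μ ≤ ((Uni.Ab W A b).card : ℝ)),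
      (((Uni.Ab W A b).card.choose (k + 1) : ℕ) : ℝ) ≤ ∑ T ∈ A.powersetCard (k + 1), (nGG (fun b X => GoodC κ1 N y b X) y T : ℝ) := by
    have g1 : ∑ T ∈ A.powersetCard (k + 1), (nGG (fun b X => GoodC κ1 N y b X) y T : ℝ) =
        ∑ b ∈ range W, ((((Uni.Ab W A b).powersetCard (k + 1)).filter (fun T => GoodC κ1 N y b T)).card : ℝ) := by
      have := sum_nGG (fun b X => GoodC κ1 N y b X) k y A
      rw [← hW] at this
      exact_mod_cast this.symm
    rw [g1, mul_sum]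
    calc _ ≤ ∑ b ∈ (Uni.gd W q r).filter (fun b => η * μ ≤ ((Uni.Ab W A b).card : ℝ)),
        ((((Uni.Ab W A b).powersetCard (k + 1)).filter (fun T => GoodC κ1 N y b T)).card : ℝ) := by
          apply sum_le_sum
          intro b hb
          rw [mem_filter] at hb
          have hAb : ∀ a ∈ Uni.Ab W A b, a ≤ ⌊l0 * Real.log N⌋₊ ∧ Nat.Coprime W (b + a) := by
            intro a ha
            unfold Uni.Ab at ha
            rw [mem_filter] at ha
            exact ⟨hAM0 a ha.1, ha.2⟩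
          have hsm1 := h1 b (Uni.Ab W A b) (fun a ha => (hAb a ha).1) (fun a ha => (hAb a ha).2) (by
            refine le_trans (le_of_eq ?_) hb.2
            rw [hlam2, hμ]; ring)
          subst hk1
          rw [pow_one]
          exact hsm1
      _ ≤ _ := by
          apply sum_le_sum_of_subset_of_nonneg ((filter_subset _ _).trans hgd)
          intro b _ _
          exact Nat.cast_nonneg _
  have s6 : ((1 / 4 : ℝ) ^ k - 3 * (e1 / 8)) * ∑ T ∈ A.powersetCard (k + 1), (Uni.gT W T : ℝ) ≤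
      ∑ T ∈ A.powersetCard (k + 1), (nGG (fun b X => GoodC κ1 N y b X) y T : ℝ) := by
    refine le_trans ?_ s5
    have g1 := mul_le_mul_of_nonneg_left s3 (show 0 ≤ (1 / 4 : ℝ) ^ k - e1 / 4 by linarith)
    refine le_trans ?_ g1
    rw [s4, ← mul_assoc]
    apply mul_le_mul_of_nonneg_right _ (sum_nonneg fun b _ => Nat.cast_nonneg _)
    rw [hη]
    nlinarith
  -- conversion
  have hcts : ∀ T ∈ A.powersetCard (k + 1), (1 - e1 / 8) * (((1 / rho y) ^ (k + 1) / W) * (Uni.gT W T : ℝ)) ≤ Uni.CT T ∧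
      Uni.CT T ≤ (1 + e1 / 8) * (((1 / rho y) ^ (k + 1) / W) * (Uni.gT W T : ℝ)) := by
    intro T hT
    rw [mem_powersetCard] at hT
    have g1 := h2 T hT.2 (fun t ht => hAM t (hT.1 ht))
    have g2 : (1 / rho y) ^ (k + 1) * ((Uni.gT W T : ℝ) / W) = ((1 / rho y) ^ (k + 1) / W) * (Uni.gT W T : ℝ) := by ring
    rw [g2] at g1
    exact g1
  have s7 := conv2 (A.powersetCard (k + 1)) (fun T => (Uni.gT W T : ℝ)) (fun T => (nGG (fun b X => GoodC κ1 N y b X) y T : ℝ)) (fun T => Uni.CT T)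
    ((1 / rho y) ^ (k + 1) / W) ((1 / 4 : ℝ) ^ k - 3 * (e1 / 8)) (e1 / 8) (by positivity) (by positivity) (by linarith)
    (by linarith) (by linarith) (fun T _ => Nat.cast_nonneg _)
    (fun T _ => by exact_mod_cast nGG_le (fun b X => GoodC κ1 N y b X) y T) (fun T hT => (hcts T hT).1) (fun T hT => (hcts T hT).2) s6
  have hCT : ∀ T ∈ A.powersetCard (k + 1), 0 ≤ Uni.CT T := fun T _ => Uni.CT_nonneg T
  have s8 : ((1 / 4 : ℝ) ^ k - ε) * ∑ T ∈ A.powersetCard (k + 1), Uni.CT T ≤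
      ((1 / 4 : ℝ) ^ k - 3 * (e1 / 8) - 3 * (e1 / 8)) * ∑ T ∈ A.powersetCard (k + 1), Uni.CT T :=
    mul_le_mul_of_nonneg_right (by linarith) (sum_nonneg hCT)
  refine s8.trans (s7.trans ?_)
  apply sum_le_sum_of_subset_of_nonneg
  · intro T hT
    rw [mem_filter] at hT ⊢
    refine ⟨hT.1, ?_⟩
    have hste := STE_ge κ1 N y T
    have hste2 : (nGG (fun b X => GoodC κ1 N y b X) y T : ℝ) * (κ1 * UU (k + 1) ((N : ℝ) / 4) y) ≤ STE N T := by
      subst hk1
      exact hste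
    refine le_trans ?_ hste2
    have g1 : e1 / 8 * (Uni.gT W T : ℝ) ≤ (nGG (fun b X => GoodC κ1 N y b X) y T : ℝ) := hT.2
    have g2 : 0 ≤ κ1 * UU (k + 1) X y := mul_nonneg hκ1.le (UU_nonneg _ hLL0.le y)
    refine le_trans ?_ (mul_le_mul_of_nonneg_right g1 g2)
    have g3 : e1 / 8 * (Uni.gT W T : ℝ) * (κ1 * UU (k + 1) X y) = e1 / 8 * κ1 * ((Uni.gT W T : ℝ) * UU (k + 1) X y) := by ring
    rw [g3, hUe]
    set zz := (1 / rho y) ^ (k + 1) * ((Uni.gT W T : ℝ) / W) with hzz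
    have hzz0 : 0 ≤ zz := by positivity
    have g4 : Uni.CT T ≤ 2 * zz := by
      refine (hcts T hT.1).2.trans ?_
      have : ((1 / rho y) ^ (k + 1) / W) * (Uni.gT W T : ℝ) = zz := by rw [hzz]; ring
      rw [this]
      exact mul_le_mul_of_nonneg_right (by linarith) hzz0
    calc e1 / 8 * κ1 / 2 * Uni.CT T * (N / L ^ (k + 1)) ≤ e1 / 8 * κ1 / 2 * (2 * zz) * V := by
          rw [hV]
          gcongr
      _ = e1 / 8 * κ1 * (zz * V) := by ring
      _ ≤ e1 / 8 * κ1 * (zz * (MPhi X / LL X ^ (k + 1))) := by gcongr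
  · intro T hT _
    exact Uni.CT_nonneg T

end Pool.Agent.Zk41.Q
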